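import Mathlib

/-! Rational preperiodic points of `t z ^ d + 1`: the integers behind them. -/

set_option autoImplicit false

namespace Pool.Agent.Q15.AU

/-- the map -/
def ft (d : ℕ) (t z : ℚ) : ℚ := t * z ^ d + 1

/-- the rational preperiodic points -/
def Pre (d : ℕ) (t : ℚ) : Set ℚ := {z | (Set.range fun k : ℕ => (ft d t)^[k] z).Finite}

/-- finite invariant sets -/
def Inv (d : ℕ) (t : ℚ) (S : Finset ℚ) : Prop := ∀ x ∈ S, ft d t x ∈ S

variable {d : ℕ} {t : ℚ}

lemma pre_step {z : ℚ} (hz : z ∈ Pre d t) : ft d t z ∈ Pre d t := by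
  refine Set.Finite.subset hz ?_
  rintro _ ⟨k, rfl⟩
  exact ⟨k + 1, Function.iterate_succ_apply _ _ _⟩

lemma pre_of_step {z : ℚ} (hz : ft d t z ∈ Pre d t) : z ∈ Pre d t := by
  refine Set.Finite.subset (Set.Finite.insert z hz) ?_
  rintro _ ⟨k, rfl⟩
  cases k with
  | zero => exact Set.mem_insert _ _
  | succ k => exact Set.mem_insert_of_mem _ ⟨k, (Function.iterate_succ_apply _ _ _).symm⟩

lemma fixed_pre {x : ℚ} (h : ft d t x = x) : x ∈ Pre d t := by
  refine Set.Finite.subset (Set.finite_singleton x) ?_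
  rintro _ ⟨k, rfl⟩
  rw [Set.mem_singleton_iff]
  exact Function.iterate_fixed h k

/-- the orbit -/
lemma exists_orbit {z : ℚ} (hz : z ∈ Pre d t) : ∃ S : Finset ℚ, z ∈ S ∧ Inv d t S := by
  classical
  have hfin : (Set.range fun k : ℕ => (ft d t)^[k] z).Finite := hz
  refine ⟨hfin.toFinset, ?_, ?_⟩
  · rw [Set.Finite.mem_toFinset]
    exact ⟨0, rfl⟩
  · intro x hx
    rw [Set.Finite.mem_toFinset] at hx ⊢
    obtain ⟨k, rfl⟩ := hx
    exact ⟨k + 1, Function.iterate_succ_apply' _ _ _⟩

/-- members of finite invariant sets are preperiodic -/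
lemma inv_pre {S : Finset ℚ} (hS : Inv d t S) {x : ℚ} (hx : x ∈ S) : x ∈ Pre d t := by
  refine S.finite_toSet.subset ?_
  rintro _ ⟨k, rfl⟩
  induction k with
  | zero => exact hx
  | succ k ih =>
    simp only [Function.iterate_succ_apply']
    exact hS _ ih

section padic

variable {p : ℕ} [hp : Fact p.Prime]

lemma norm_pow (z : ℚ) (n : ℕ) : padicNorm p (z ^ n) = padicNorm p z ^ n := by
  induction n with
  | zero => simp
  | succ n ih => rw [pow_succ, padicNorm.mul, ih, pow_succ]

lemma norm_ft_of_lt {x : ℚ} (h : 1 < padicNorm p t * padicNorm p x ^ d) :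
    padicNorm p (ft d t x) = padicNorm p t * padicNorm p x ^ d := by
  have h1 : padicNorm p (t * x ^ d) = padicNorm p t * padicNorm p x ^ d := by
    rw [padicNorm.mul, norm_pow]
  unfold ft
  rw [padicNorm.add_eq_max_of_ne, h1, padicNorm.one]
  · exact max_eq_left h.le
  · rw [h1, padicNorm.one]
    exact h.ne'

lemma padic_one (hd : 2 ≤ d) {S : Finset ℚ} (hS : Inv d t S) (ht : padicNorm p t ≤ 1) {x : ℚ}
    (hx : x ∈ S) : padicNorm p t * padicNorm p x ^ (d - 1) ≤ 1 := by
  obtain ⟨m, hm, hmax⟩ := S.exists_max_image (fun y => padicNorm p y) ⟨x, hx⟩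
  by_contra hcon
  push Not at hcon
  have h0 : 0 ≤ padicNorm p t := padicNorm.nonneg _
  have h0x : 0 ≤ padicNorm p x := padicNorm.nonneg _
  have h0m : 0 ≤ padicNorm p m := padicNorm.nonneg _
  have h1 : 1 < padicNorm p t * padicNorm p m ^ (d - 1) := by
    refine hcon.trans_le (mul_le_mul_of_nonneg_left ?_ h0)
    exact pow_le_pow_left₀ h0x (hmax x hx) _
  have hM : 1 < padicNorm p m := by
    by_contra h
    push Not at h
    have : padicNorm p t * padicNorm p m ^ (d - 1) ≤ 1 * 1 :=
      mul_le_mul ht (pow_le_one₀ h0m h) (pow_nonneg h0m _) zero_le_one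
    linarith
  have h2 : padicNorm p t * padicNorm p m ^ d =
      padicNorm p m * (padicNorm p t * padicNorm p m ^ (d - 1)) := by
    have : padicNorm p m ^ d = padicNorm p m * padicNorm p m ^ (d - 1) := by
      rw [← pow_succ']
      congr 1
      omega
    rw [this]
    ring
  have h3 : padicNorm p m < padicNorm p t * padicNorm p m ^ d := by
    rw [h2]
    nlinarith
  have h4 := norm_ft_of_lt (d := d) (t := t) (x := m) (hM.trans h3)
  have h5 := hmax _ (hS m hm)
  rw [h4] at h5
  linarith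

lemma padic_two (hd : 2 ≤ d) {S : Finset ℚ} (hS : Inv d t S) (ht : 1 < padicNorm p t) {x : ℚ}
    (hx : x ∈ S) : padicNorm p t * padicNorm p x ^ d = 1 := by
  obtain ⟨m, hm, hmax⟩ := S.exists_max_image (fun y => padicNorm p y) ⟨x, hx⟩
  have h0x : 0 ≤ padicNorm p x := padicNorm.nonneg _
  have h0m : 0 ≤ padicNorm p m := padicNorm.nonneg _
  have h1 : padicNorm p t * padicNorm p m ^ d ≤ 1 := by
    by_contra h
    push Not at h
    have h2 := hmax _ (hS m hm)
    rw [norm_ft_of_lt h] at h2
    rcases le_or_gt 1 (padicNorm p m) with h3 | h3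
    · have h4 : padicNorm p m ≤ padicNorm p m ^ d := le_self_pow₀ h3 (by omega)
      nlinarith
    · linarith
  have hM : padicNorm p m < 1 := by
    by_contra h
    push Not at h
    have : 1 ≤ padicNorm p m ^ d := one_le_pow₀ h
    nlinarith
  have h2 : padicNorm p t * padicNorm p x ^ d ≤ 1 := by
    refine le_trans (mul_le_mul_of_nonneg_left ?_ (by linarith)) h1
    exact pow_le_pow_left₀ h0x (hmax x hx) _
  by_contra hne
  have h3 : padicNorm p t * padicNorm p x ^ d < 1 := lt_of_le_of_ne h2 hne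
  have h4 : padicNorm p (ft d t x) = 1 := by
    have h5 : padicNorm p (t * x ^ d) = padicNorm p t * padicNorm p x ^ d := by
      rw [padicNorm.mul, norm_pow]
    unfold ft
    rw [padicNorm.add_eq_max_of_ne, h5, padicNorm.one]
    · exact max_eq_right h3.le
    · rw [h5, padicNorm.one]
      exact h3.ne
  have h5 := hmax _ (hS x hx)
  rw [h4] at h5
  linarith

lemma norm_eq {q : ℚ} (hq : q ≠ 0) : padicNorm p q =
    (p : ℚ) ^ ((padicValNat p q.den : ℤ) - padicValNat p q.num.natAbs) := by
  rw [padicNorm.eq_zpow_of_nonzero hq]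
  congr 1
  have hv : padicValRat p q = (padicValNat p q.num.natAbs : ℤ) - padicValNat p q.den := rfl
  rw [hv]
  ring

lemma val_num_zero {q : ℚ} (h : padicValNat p q.den ≠ 0) : padicValNat p q.num.natAbs = 0 := by
  apply padicValNat.eq_zero_of_not_dvd
  intro h1
  have h2 : p ∣ q.den := by
    by_contra h3
    exact h (padicValNat.eq_zero_of_not_dvd h3)
  have h3 := Nat.dvd_gcd h1 h2
  rw [q.reduced] at h3
  exact hp.out.one_lt.ne' (Nat.dvd_one.1 h3)

/-- the primes which divide the denominator -/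
lemma val_bad (hd : 2 ≤ d) (ht : t ≠ 0) {S : Finset ℚ} (hS : Inv d t S)
    (hpt : padicValNat p t.den ≠ 0) {x : ℚ} (hx : x ∈ S) :
    padicValNat p x.den = 0 ∧ d * padicValNat p x.num.natAbs = padicValNat p t.den := by
  have hp1 : (1 : ℚ) < p := by exact_mod_cast hp.out.one_lt
  have hn := val_num_zero hpt
  have h1 : 1 < padicNorm p t := by
    rw [norm_eq ht, hn]
    apply one_lt_zpow₀ hp1
    have : 0 < padicValNat p t.den := Nat.pos_of_ne_zero hpt
    omega
  have h2 := padic_two hd hS h1 hx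
  have hx0 : x ≠ 0 := by
    rintro rfl
    rw [padicNorm.zero, zero_pow (by omega), mul_zero] at h2
    exact zero_ne_one h2
  rw [norm_eq ht, norm_eq hx0, hn, ← zpow_natCast, ← zpow_mul,
    ← zpow_add₀ (by linarith : (p : ℚ) ≠ 0)] at h2
  have h3 := (zpow_eq_one_iff_right₀ (by linarith : (0 : ℚ) ≤ p) hp1.ne').1 h2
  by_cases hden : padicValNat p x.den = 0
  · refine ⟨hden, ?_⟩
    rw [hden] at h3
    push_cast at h3
    have h4 : ((d * padicValNat p x.num.natAbs : ℕ) : ℤ) = (padicValNat p t.den : ℤ) := by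
      push_cast
      linarith
    exact_mod_cast h4
  · exfalso
    have h4 := val_num_zero hden
    rw [h4] at h3
    simp only [Nat.cast_zero, sub_zero] at h3
    have h5 : (0 : ℤ) < padicValNat p t.den := by exact_mod_cast Nat.pos_of_ne_zero hpt
    have h6 : (0 : ℤ) ≤ (padicValNat p x.den : ℤ) * d := by positivity
    linarith

/-- the other primes -/
lemma val_good (hd : 2 ≤ d) (ht : t ≠ 0) {S : Finset ℚ} (hS : Inv d t S) {x : ℚ} (hx : x ∈ S) :
    (d - 1) * padicValNat p x.den ≤ padicValNat p t.num.natAbs := by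
  have hp1 : (1 : ℚ) < p := by exact_mod_cast hp.out.one_lt
  by_cases hden : padicValNat p x.den = 0
  · rw [hden, mul_zero]
    exact Nat.zero_le _
  by_cases hpt : padicValNat p t.den = 0
  · have hn := val_num_zero hden
    have hx0 : x ≠ 0 := by
      rintro rfl
      simp at hden
    have h1 : padicNorm p t ≤ 1 := by
      rw [norm_eq ht, hpt]
      apply zpow_le_one_of_nonpos₀ hp1.le
      rw [Nat.cast_zero]
      omega
    have h2 := padic_one hd hS h1 hx
    rw [norm_eq ht, norm_eq hx0, hn, hpt, ← zpow_natCast, ← zpow_mul,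
      ← zpow_add₀ (by linarith : (p : ℚ) ≠ 0)] at h2
    have h3 := (zpow_le_one_iff_right₀ hp1).1 h2
    push_cast at h3
    have h4 : (((d - 1) * padicValNat p x.den : ℕ) : ℤ) ≤ (padicValNat p t.num.natAbs : ℤ) := by
      push_cast
      linarith
    exact_mod_cast h4
  · exact absurd (val_bad hd ht hS hpt hx).1 hden

end padic

lemma lcm_pow_dvd {g e k n : ℕ} (hn : n ≠ 0) (hg : g ≠ 0) (he : e ≠ 0) (h1 : g ^ k ∣ n)
    (h2 : e ^ k ∣ n) : (Nat.lcm g e) ^ k ∣ n := by
  rw [← Nat.factorization_le_iff_dvd (pow_ne_zero _ (Nat.lcm_ne_zero hg he)) hn]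
  rw [← Nat.factorization_le_iff_dvd (pow_ne_zero _ hg) hn] at h1
  rw [← Nat.factorization_le_iff_dvd (pow_ne_zero _ he) hn] at h2
  intro p
  have h1p := h1 p
  have h2p := h2 p
  rw [Nat.factorization_pow, Finsupp.smul_apply, smul_eq_mul] at h1p h2p ⊢
  rw [Nat.factorization_lcm hg he, Finsupp.sup_apply]
  rcases le_total (g.factorization p) (e.factorization p) with h | h
  · rw [sup_eq_right.2 h]
    exact h2p
  · rw [sup_eq_left.2 h]
    exact h1p

/-- The integers behind a finite invariant set. -/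
theorem data (hd : 2 ≤ d) (ht : t ≠ 0) {S : Finset ℚ} (hne : S.Nonempty) (hS : Inv d t S) :
    ∃ (a e : ℕ) (n : ℤ), 0 < a ∧ 0 < e ∧ n ≠ 0 ∧ t.den = a ^ d ∧ t.num = n * (e : ℤ) ^ (d - 1) ∧
      ∀ x ∈ S, ∃ u : ℤ, x = a * u / e := by
  classical
  obtain ⟨x0, hx0⟩ := hne
  have hnum0 : t.num.natAbs ≠ 0 := by
    rw [Ne, Int.natAbs_eq_zero]
    exact Rat.num_ne_zero.2 ht
  -- the number `a`
  set a := Nat.gcd t.den x0.num.natAbs with ha
  have ha0 : 0 < a := Nat.gcd_pos_of_pos_left _ t.den_pos
  have hval : ∀ p : ℕ, p.Prime → padicValNat p t.den ≠ 0 → ∀ x ∈ S,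
      padicValNat p x.den = 0 ∧ padicValNat p x.num.natAbs = a.factorization p ∧
        x.num.natAbs ≠ 0 := by
    intro p hp hpt x hx
    have hf : Fact p.Prime := ⟨hp⟩
    obtain ⟨h1, h2⟩ := val_bad hd ht hS hpt hx
    obtain ⟨h3, h4⟩ := val_bad hd ht hS hpt hx0
    have hx0' : x0.num.natAbs ≠ 0 := by
      intro h
      rw [h, padicValNat_zero_right, mul_zero] at h4
      exact hpt h4.symm
    have hx' : x.num.natAbs ≠ 0 := by
      intro h
      rw [h, padicValNat_zero_right, mul_zero] at h2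
      exact hpt h2.symm
    refine ⟨h1, ?_, hx'⟩
    have h5 : padicValNat p x.num.natAbs = padicValNat p x0.num.natAbs := by
      have : d * padicValNat p x.num.natAbs = d * padicValNat p x0.num.natAbs := by
        rw [h2, h4]
      exact Nat.eq_of_mul_eq_mul_left (by omega) this
    rw [h5, ha, Nat.factorization_gcd t.den_nz hx0', Finsupp.inf_apply,
      Nat.factorization_def _ hp, Nat.factorization_def _ hp, ← h4]
    rw [inf_eq_right.2]
    exact Nat.le_mul_of_pos_left _ (by omega)
  have hdena : t.den = a ^ d := by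
    apply Nat.eq_of_factorization_eq t.den_nz (pow_ne_zero _ ha0.ne')
    intro p
    by_cases hp : p.Prime
    · have hf : Fact p.Prime := ⟨hp⟩
      rw [Nat.factorization_pow, Finsupp.smul_apply, smul_eq_mul]
      by_cases hpt : padicValNat p t.den = 0
      · have h1 : a.factorization p = 0 := by
          rw [Nat.factorization_def _ hp]
          apply padicValNat.eq_zero_of_not_dvd
          intro h2
          have h3 : p ∣ t.den := h2.trans (Nat.gcd_dvd_left _ _)
          exact (dvd_iff_padicValNat_ne_zero t.den_nz).1 h3 hpt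
        rw [Nat.factorization_def _ hp, hpt, h1, mul_zero]
      · obtain ⟨-, h2, -⟩ := hval p hp hpt x0 hx0
        rw [← h2, (val_bad hd ht hS hpt hx0).2, Nat.factorization_def _ hp]
    · rw [Nat.factorization_eq_zero_of_not_prime _ hp,
        Nat.factorization_eq_zero_of_not_prime _ hp]
  -- the number `e`
  have hden : ∀ x ∈ S, x.den ^ (d - 1) ∣ t.num.natAbs := by
    intro x hx
    rw [← Nat.factorization_le_iff_dvd (pow_ne_zero _ x.den_nz) hnum0]
    intro p
    by_cases hp : p.Prime
    · have hf : Fact p.Prime := ⟨hp⟩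
      rw [Nat.factorization_pow, Finsupp.smul_apply, smul_eq_mul, Nat.factorization_def _ hp,
        Nat.factorization_def _ hp]
      exact val_good hd ht hS hx
    · rw [Nat.factorization_eq_zero_of_not_prime _ hp]
      exact Nat.zero_le _
  have hlcm : ∀ F : Finset ℚ, F ⊆ S → ∃ e : ℕ, 0 < e ∧ e ^ (d - 1) ∣ t.num.natAbs ∧
      ∀ x ∈ F, x.den ∣ e := by
    intro F
    induction F using Finset.induction_on with
    | empty =>
      intro _
      exact ⟨1, one_pos, by rw [one_pow]; exact one_dvd _, fun x hx => by simp at hx⟩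
    | insert y F hy ih =>
      intro hF
      obtain ⟨e, he0, he, hall⟩ := ih ((Finset.subset_insert _ _).trans hF)
      refine ⟨Nat.lcm y.den e, Nat.lcm_pos y.den_pos he0,
        lcm_pow_dvd hnum0 y.den_nz he0.ne' (hden y (hF (Finset.mem_insert_self _ _))) he, ?_⟩
      intro x hx
      rcases Finset.mem_insert.1 hx with rfl | hx
      · exact Nat.dvd_lcm_left _ _
      · exact (hall x hx).trans (Nat.dvd_lcm_right _ _)
  obtain ⟨e, he0, he, hall⟩ := hlcm S (Finset.Subset.refl S)
  have he' : ((e : ℤ)) ^ (d - 1) ∣ t.num := by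
    rw [← Int.dvd_natAbs]
    exact_mod_cast he
  obtain ⟨n, hn⟩ := he'
  refine ⟨a, e, n, ha0, he0, ?_, hdena, by rw [hn]; ring, ?_⟩
  · rintro rfl
    apply Rat.num_ne_zero.2 ht
    rw [hn, mul_zero]
  · intro x hx
    -- `a` divides the numerator
    have hax : (a : ℤ) ∣ x.num := by
      rw [← Int.dvd_natAbs]
      by_cases hxn : x.num.natAbs = 0
      · rw [hxn]
        exact dvd_zero _
      · have : a ∣ x.num.natAbs := by
          rw [← Nat.factorization_le_iff_dvd ha0.ne' hxn]
          intro p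
          by_cases hp : p.Prime
          · have hf : Fact p.Prime := ⟨hp⟩
            by_cases hpt : padicValNat p t.den = 0
            · have h1 : a.factorization p = 0 := by
                rw [Nat.factorization_def _ hp]
                apply padicValNat.eq_zero_of_not_dvd
                intro h2
                have h3 : p ∣ t.den := h2.trans (Nat.gcd_dvd_left _ _)
                exact (dvd_iff_padicValNat_ne_zero t.den_nz).1 h3 hpt
              rw [h1]
              exact Nat.zero_le _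
            · rw [← (hval p hp hpt x hx).2.1, Nat.factorization_def _ hp]
          · rw [Nat.factorization_eq_zero_of_not_prime _ hp]
            exact Nat.zero_le _
        exact_mod_cast this
    obtain ⟨k, hk⟩ := hax
    obtain ⟨l, hl⟩ := hall x hx
    refine ⟨k * l, ?_⟩
    have hxd : (x.den : ℚ) ≠ 0 := by exact_mod_cast x.den_nz
    have hl0 : (l : ℚ) ≠ 0 := by
      have : l ≠ 0 := by
        rintro rfl
        omega
      exact_mod_cast this
    conv_lhs => rw [← Rat.num_div_den x, hk]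
    rw [hl]
    push_cast
    rw [div_eq_div_iff hxd (mul_ne_zero hxd hl0)]
    ring

section rel

variable {a e : ℕ} {n : ℤ}

lemma t_eq (h1 : t.den = a ^ d) (h2 : t.num = n * (e : ℤ) ^ (d - 1)) :
    t = n * (e : ℚ) ^ (d - 1) / (a : ℚ) ^ d := by
  rw [← Rat.num_div_den t, h1, h2]
  push_cast
  rfl

lemma coprime_an (hd : 2 ≤ d) (h1 : t.den = a ^ d) (h2 : t.num = n * (e : ℤ) ^ (d - 1)) :
    IsCoprime (a : ℤ) n := by
  have h3 := t.reduced
  rw [h1] at h3
  have h4 : IsCoprime (t.num) ((a ^ d : ℕ) : ℤ) := by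
    rw [← Int.natAbs_natCast (a ^ d)] at h3
    exact Int.isCoprime_iff_gcd_eq_one.2 h3
  rw [h2] at h4
  push_cast at h4
  have h5 := h4.of_mul_left_left
  exact ((IsCoprime.pow_right_iff (by omega)).1 h5).symm

/-- the equation behind `f(x) = y` -/
lemma rel (hd : 2 ≤ d) (ha : 0 < a) (he : 0 < e) (h1 : t.den = a ^ d)
    (h2 : t.num = n * (e : ℤ) ^ (d - 1)) {x y : ℚ} {u w : ℤ} (hx : x = a * u / e)
    (hy : y = a * w / e) (h : ft d t x = y) : (a : ℤ) * w = n * u ^ d + e := by
  have ha' : (a : ℚ) ≠ 0 := by exact_mod_cast ha.ne'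
  have he' : (e : ℚ) ≠ 0 := by exact_mod_cast he.ne'
  unfold ft at h
  rw [t_eq h1 h2, hx, hy] at h
  have h3 : (n : ℚ) * (e : ℚ) ^ (d - 1) / (a : ℚ) ^ d * (a * u / e) ^ d = n * u ^ d / e := by
    have h4 : (e : ℚ) ^ d = (e : ℚ) ^ (d - 1) * e := by
      rw [← pow_succ]
      congr 1
      omega
    rw [div_pow, mul_pow, h4]
    have h5 : (a : ℚ) ^ d ≠ 0 := pow_ne_zero _ ha'
    have h6 : (e : ℚ) ^ (d - 1) ≠ 0 := pow_ne_zero _ he'
    field_simp
  rw [h3] at h
  have h4 : (n : ℚ) * u ^ d + e = a * w := by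
    have h5 : ((n : ℚ) * u ^ d + e) / e = a * w / e := by
      rw [add_div, div_self he']
      exact h
    exact (div_left_inj' he').1 h5
  have h5 : (((a : ℤ) * w : ℤ) : ℚ) = ((n * u ^ d + e : ℤ) : ℚ) := by
    push_cast
    linarith
  exact_mod_cast h5

end rel

end Pool.Agent.Q15.AU
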