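import Pool.Agent.Results.MP_c076ed_nt.PolynomialsExact
import Pool.Agent.Q15.AU.A1

/-! The number of the preperiodic points of `t z ^ d + 1`, from the starting theorem
`PolynomialsExact`. -/

set_option autoImplicit false

namespace Pool.Agent.Q15.AU

open NumberField Polynomial IsDedekindDomain

open Classical in
/-- the finite places over the prime divisors of `m` -/
noncomputable def pl (m : ℕ) : Finset (FinitePlace ℚ) :=
  m.primeFactors.attach.image fun p => FinitePlace.mk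
    (Rat.HeightOneSpectrum.primesEquiv.symm ⟨p.1, Nat.prime_of_mem_primeFactors p.2⟩)

lemma card_pl (m : ℕ) : (pl m).card ≤ m.primeFactors.card := by
  classical
  unfold pl
  exact Finset.card_image_le.trans (by rw [Finset.card_attach])

lemma eq_one_of_notMem {m : ℕ} (hm : m ≠ 0) {v : FinitePlace ℚ} (hv : v ∉ pl m) :
    v (m : ℚ) = 1 := by
  classical
  by_contra hne
  apply hv
  set v' := v.maximalIdeal with hv'
  have h0 : algebraMap (𝓞 ℚ) ℚ (m : 𝓞 ℚ) = (m : ℚ) := map_natCast _ _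
  have h1 : v (m : ℚ) = ‖FinitePlace.embedding v' (algebraMap (𝓞 ℚ) ℚ (m : 𝓞 ℚ))‖ := by
    rw [h0]
    exact (FinitePlace.norm_embedding_eq v (m : ℚ)).symm
  have h2 : (m : 𝓞 ℚ) ∈ v'.asIdeal := by
    by_contra h3
    apply hne
    rw [h1]
    exact (FinitePlace.norm_eq_one_iff_notMem ℚ v' _).2 h3
  have h3 : Rat.HeightOneSpectrum.natGenerator v' ∣ m := by
    rw [Rat.HeightOneSpectrum.natGenerator_dvd_iff]
    have := Ideal.mem_map_of_mem (Rat.IsIntegralClosure.intEquiv (𝓞 ℚ)) h2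
    rwa [map_natCast] at this
  have hp := Rat.HeightOneSpectrum.prime_natGenerator v'
  unfold pl
  rw [Finset.mem_image]
  refine ⟨⟨Rat.HeightOneSpectrum.natGenerator v', Nat.mem_primeFactors.2 ⟨hp, h3, hm⟩⟩,
    Finset.mem_attach _ _, ?_⟩
  have h4 : Rat.HeightOneSpectrum.primesEquiv v' =
      ⟨Rat.HeightOneSpectrum.natGenerator v', hp⟩ := rfl
  simp only
  rw [← h4, Equiv.symm_apply_apply, hv', FinitePlace.mk_maximalIdeal]

lemma le_one_of_notMem {t : ℚ} {v : FinitePlace ℚ} (hv : v ∉ pl t.den) : v t ≤ 1 := by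
  have h1 := eq_one_of_notMem t.den_nz hv
  have h2 : v t * v (t.den : ℚ) = v (t.num : ℚ) := by
    rw [← map_mul, Rat.mul_den_eq_num]
  rw [h1, mul_one] at h2
  rw [h2]
  exact Pool.Agent.TH737.HEN.finitePlace_intCast_le v t.num

open Pool.Agent.Results.MP_c076ed_nt.PolynomialsExact

lemma potGood {K : Type} [Field K] [NumberField K] {d : ℕ} (hd : 2 ≤ d) {t : K} (ht : t ≠ 0)
    {v : FinitePlace K} (hv : v t ≤ 1) : PotGoodAt v (C t * X ^ d + 1 : K[X]) := by
  obtain ⟨w, hw⟩ := Pool.Agent.H951R3.PB.exists_ext_fin v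
  obtain ⟨φ, hφ⟩ : ∃ φ, φ = algebraMap K (AlgebraicClosure K) := ⟨_, rfl⟩
  have hφt : φ t ≠ 0 := by
    rw [Ne, map_eq_zero]
    exact ht
  obtain ⟨l, hl⟩ := IsAlgClosed.exists_pow_nat_eq (φ t)⁻¹ (show 0 < d - 1 by omega)
  have hl0 : l ≠ 0 := by
    rintro rfl
    rw [zero_pow (by omega)] at hl
    exact inv_ne_zero hφt hl.symm
  have hwl : w l⁻¹ ≤ 1 := by
    have h1 : (w l⁻¹) ^ (d - 1) ≤ 1 := by
      rw [← map_pow, inv_pow, hl, inv_inv, hφ]
      have := hw t
      rw [this]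
      exact hv
    by_contra h
    push Not at h
    exact absurd h1 (not_le.2 (one_lt_pow₀ h (by omega)))
  refine ⟨w, fun x => hw x, X ^ d + C l⁻¹, l, 0, hl0, ?_, ?_, ?_⟩
  · intro j
    rw [coeff_add, coeff_X_pow, coeff_C]
    by_cases h1 : j = d
    · rw [if_pos h1, if_neg (by omega), add_zero, map_one]
    · rw [if_neg h1, zero_add]
      split_ifs
      · exact hwl
      · rw [map_zero]
        exact zero_le_one
  · rw [leadingCoeff_X_pow_add_C (by omega), map_one]
  · rw [← hφ, Polynomial.map_add, Polynomial.map_mul, map_C, Polynomial.map_pow, map_X,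
      Polynomial.map_one, map_zero, add_zero, sub_zero, add_comp, mul_comp, C_comp, X_pow_comp,
      one_comp, mul_pow, ← C_pow, ← mul_assoc, ← C_mul, mul_add, ← C_mul, mul_inv_cancel₀ hl0]
    have h1 : φ t * l ^ d = l := by
      have h2 : l ^ d = l ^ (d - 1) * l := by
        rw [← pow_succ]
        congr 1
        omega
      rw [h2, hl, ← mul_assoc, mul_inv_cancel₀ hφt, one_mul]
    rw [h1, C_1]

/-- the number of the preperiodic points -/
theorem card_pre {d : ℕ} (hd : 2 ≤ d) {t : ℚ} (ht : t ≠ 0) :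
    (Pre d t).encard ≤ ((d ^ t.den.primeFactors.card * max 5 d : ℕ) : ℕ∞) := by
  have hdeg : (C t * X ^ d + 1 : ℚ[X]).natDegree = d := by
    rw [← C_1, natDegree_add_C, natDegree_C_mul_X_pow _ _ ht]
  have h1 := result.{0}.2.1 d (C t * X ^ d + 1 : ℚ[X]) (pl t.den) hd hdeg
    (fun v hv => potGood hd ht (le_one_of_notMem hv))
  have h2 : prePoints (C t * X ^ d + 1 : ℚ[X]) = Pre d t := by
    unfold prePoints Pre
    have h3 : (fun y : ℚ => (C t * X ^ d + 1 : ℚ[X]).eval y) = ft d t := by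
      funext y
      unfold ft
      simp
    rw [h3]
  rw [h2] at h1
  refine h1.trans ?_
  have h3 : d ^ (pl t.den).card * max 5 d ≤ d ^ t.den.primeFactors.card * max 5 d :=
    Nat.mul_le_mul_right _ (Nat.pow_le_pow_right (by omega) (card_pl _))
  exact_mod_cast h3

theorem pre_finite {d : ℕ} (hd : 2 ≤ d) {t : ℚ} (ht : t ≠ 0) : (Pre d t).Finite :=
  Set.finite_of_encard_le_coe (card_pre hd ht)

theorem ncard_pre {d : ℕ} (hd : 2 ≤ d) {t : ℚ} (ht : t ≠ 0) :
    (Pre d t).ncard ≤ d ^ t.den.primeFactors.card * max 5 d := by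
  have h1 := card_pre hd ht
  rw [← (pre_finite hd ht).cast_ncard_eq] at h1
  exact_mod_cast h1

end Pool.Agent.Q15.AU
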