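import Pool.Agent.Q15.AU.A1

/-! Sizes, congruences and the pair of an exceptional parameter. -/

set_option autoImplicit false

namespace Pool.Agent.Q15.AU

variable {d : ℕ} {t : ℚ}

section real

/-- The real estimate. -/
lemma real_or (hd : 3 ≤ d) {S : Finset ℚ} (hS : Inv d t S) {x : ℚ} (hx : x ∈ S) :
    |t| * |x| ^ (d - 1) ≤ 2 ∨ |t| * |x| ^ d ≤ 2 := by
  obtain ⟨m, hm, hmax⟩ := S.exists_max_image (fun y => |y|) ⟨x, hx⟩
  have h0 : 0 ≤ |t| := abs_nonneg _
  have h0x : 0 ≤ |x| := abs_nonneg _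
  have h0m : 0 ≤ |m| := abs_nonneg _
  have hf : ∀ y : ℚ, |t| * |y| ^ d ≤ |ft d t y| + 1 := by
    intro y
    have h1 : t * y ^ d = ft d t y - 1 := by unfold ft; ring
    rw [← abs_pow, ← abs_mul, h1]
    exact (abs_sub _ _).trans (by rw [abs_one])
  rcases le_or_gt (|t| * |m| ^ (d - 1)) 2 with h1 | h1
  · left
    refine le_trans (mul_le_mul_of_nonneg_left ?_ h0) h1
    exact pow_le_pow_left₀ h0x (hmax x hx) _
  · right
    have hm1 : |m| ≤ 1 := by
      by_contra hcon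
      push Not at hcon
      have h2 : |m| ^ d = |m| * |m| ^ (d - 1) := by
        rw [← pow_succ']
        congr 1
        omega
      have h3 := hf m
      have h4 := hmax _ (hS m hm)
      rw [h2] at h3
      nlinarith
    have h2 := hf x
    have h3 := hmax _ (hS x hx)
    linarith

/-- The size of the integers. -/
lemma size_le (hd : 3 ≤ d) {S : Finset ℚ} (hS : Inv d t S) {a e : ℕ} {n : ℤ} (ha : 0 < a)
    (he : 0 < e) (h1 : t.den = a ^ d) (h2 : t.num = n * (e : ℤ) ^ (d - 1)) {Y : ℝ} (hY : 0 ≤ Y)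
    (hX1 : ((|t.num| : ℤ) : ℝ) ≤ Y ^ d) (hX2 : (t.den : ℝ) ≤ Y ^ d) {x : ℚ} (hx : x ∈ S) {u : ℤ}
    (hu : x = a * u / e) : |(n : ℝ)| * |(u : ℝ)| ^ (d - 1) ≤ 2 * Y := by
  have ha' : (0 : ℝ) < a := by exact_mod_cast ha
  have he' : (0 : ℝ) < e := by exact_mod_cast he
  have hd0 : d ≠ 0 := by omega
  have hdd : d = (d - 1) + 1 := by omega
  have haY : (a : ℝ) ≤ Y := by
    rw [h1] at hX2
    push_cast at hX2
    exact le_of_pow_le_pow_left₀ hd0 hY hX2
  have htq := t_eq h1 h2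
  have htr : (|(t : ℝ)|) = |(n : ℝ)| * (e : ℝ) ^ (d - 1) / (a : ℝ) ^ d := by
    have : (t : ℝ) = n * (e : ℝ) ^ (d - 1) / (a : ℝ) ^ d := by
      rw [htq]
      push_cast
      rfl
    rw [this, abs_div, abs_mul, abs_of_nonneg (pow_nonneg he'.le _),
      abs_of_nonneg (pow_nonneg ha'.le _)]
  have hxr : |(x : ℝ)| = a * |(u : ℝ)| / e := by
    have : (x : ℝ) = a * u / e := by
      rw [hu]
      push_cast
      rfl
    rw [this, abs_div, abs_mul, abs_of_pos ha', abs_of_pos he']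
  have hnum : |(n : ℝ)| * (e : ℝ) ^ (d - 1) ≤ Y ^ d := by
    have : ((|t.num| : ℤ) : ℝ) = |(n : ℝ)| * (e : ℝ) ^ (d - 1) := by
      rw [h2]
      push_cast
      rw [abs_mul, abs_of_nonneg (pow_nonneg he'.le _)]
    rwa [this] at hX1
  have hea : (e : ℝ) ^ (d - 1) ≠ 0 := (pow_pos he' _).ne'
  rcases real_or hd hS hx with h | h
  · have h3 : |(t : ℝ)| * |(x : ℝ)| ^ (d - 1) ≤ 2 := by exact_mod_cast h
    rw [htr, hxr, div_pow, mul_pow] at h3
    have h4 : |(n : ℝ)| * (e : ℝ) ^ (d - 1) / (a : ℝ) ^ d *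
        ((a : ℝ) ^ (d - 1) * |(u : ℝ)| ^ (d - 1) / (e : ℝ) ^ (d - 1)) =
        |(n : ℝ)| * |(u : ℝ)| ^ (d - 1) / a := by
      have h5 : (a : ℝ) ^ d = (a : ℝ) ^ (d - 1) * a := by
        rw [← pow_succ, ← hdd]
      rw [h5]
      field_simp
    rw [h4, div_le_iff₀ ha'] at h3
    linarith
  · have h3 : |(t : ℝ)| * |(x : ℝ)| ^ d ≤ 2 := by exact_mod_cast h
    rw [htr, hxr, div_pow, mul_pow] at h3
    have h4 : |(n : ℝ)| * (e : ℝ) ^ (d - 1) / (a : ℝ) ^ d *
        ((a : ℝ) ^ d * |(u : ℝ)| ^ d / (e : ℝ) ^ d) = |(n : ℝ)| * |(u : ℝ)| ^ d / e := by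
      have h5 : (e : ℝ) ^ d = (e : ℝ) ^ (d - 1) * e := by
        rw [← pow_succ, ← hdd]
      rw [h5]
      field_simp
    rw [h4, div_le_iff₀ he'] at h3
    have hn0 : 0 ≤ |(n : ℝ)| := abs_nonneg _
    have hu0 : 0 ≤ |(u : ℝ)| := abs_nonneg _
    apply le_of_pow_le_pow_left₀ (n := d) hd0 (by positivity)
    calc (|(n : ℝ)| * |(u : ℝ)| ^ (d - 1)) ^ d =
          (|(n : ℝ)| * |(u : ℝ)| ^ d) ^ (d - 1) * |(n : ℝ)| := by
          rw [mul_pow, mul_pow, ← pow_mul, ← pow_mul, mul_comm (d - 1) d]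
          have : |(n : ℝ)| ^ d = |(n : ℝ)| ^ (d - 1) * |(n : ℝ)| := by
            rw [← pow_succ, ← hdd]
          rw [this]
          ring
      _ ≤ (2 * e) ^ (d - 1) * |(n : ℝ)| := by gcongr
      _ = 2 ^ (d - 1) * (|(n : ℝ)| * (e : ℝ) ^ (d - 1)) := by
          rw [mul_pow]
          ring
      _ ≤ 2 ^ (d - 1) * Y ^ d := by gcongr
      _ ≤ 2 ^ d * Y ^ d := by
          gcongr
          · norm_num
          · omega
      _ = (2 * Y) ^ d := (mul_pow _ _ _).symm

end real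

/-- the congruence -/
lemma cong {a e : ℕ} {n : ℤ} (hc : IsCoprime (a : ℤ) n) {u w u' w' : ℤ}
    (h1 : (a : ℤ) * u' = n * u ^ d + e) (h2 : (a : ℤ) * w' = n * w ^ d + e) :
    (a : ℤ) ∣ u ^ d - w ^ d := by
  refine hc.dvd_of_dvd_mul_left ⟨u' - w', ?_⟩
  linear_combination h2 - h1

/-- A parameter whose preperiodic points have different `d`-th powers comes from two of them. -/
theorem exc_pair (hd : 3 ≤ d) (ht : t ≠ 0) (h : ∃ x ∈ Pre d t, ∃ y ∈ Pre d t, x ^ d ≠ y ^ d)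
    {Y : ℝ} (hY : 0 ≤ Y) (hX1 : ((|t.num| : ℤ) : ℝ) ≤ Y ^ d) (hX2 : (t.den : ℝ) ≤ Y ^ d) :
    ∃ (a : ℕ) (n u w : ℤ) (s : Bool), 0 < a ∧ n ≠ 0 ∧ u ^ d ≠ w ^ d ∧ (a : ℤ) ∣ u ^ d - w ^ d ∧
      |(n : ℝ)| * |(u : ℝ)| ^ (d - 1) ≤ 2 * Y ∧ |(n : ℝ)| * |(w : ℝ)| ^ (d - 1) ≤ 2 * Y ∧
      t = n * ((a : ℚ) * (if s then (u : ℚ) else w) - n * u ^ d) ^ (d - 1) / (a : ℚ) ^ d := by
  classical
  -- an invariant set with two points
  have key : ∃ S : Finset ℚ, Inv d t S ∧ ∃ x ∈ S, ∃ y ∈ S, x ^ d ≠ y ^ d ∧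
      (ft d t x = y ∨ ft d t x = x) := by
    by_cases hA : ∃ x ∈ Pre d t, (ft d t x) ^ d ≠ x ^ d
    · obtain ⟨x, hx, hne⟩ := hA
      obtain ⟨S, hxS, hS⟩ := exists_orbit hx
      exact ⟨S, hS, x, hxS, ft d t x, hS x hxS, Ne.symm hne, Or.inl rfl⟩
    · push Not at hA
      obtain ⟨x, hx, y, hy, hxy⟩ := h
      have hfix : ∀ z ∈ Pre d t, ft d t (ft d t z) = ft d t z := by
        intro z hz
        have h1 := hA z hz
        have h2 : ft d t (ft d t z) = t * (ft d t z) ^ d + 1 := rfl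
        rw [h2, h1]
        rfl
      refine ⟨{ft d t x, ft d t y}, ?_, ft d t x, by simp, ft d t y, by simp, ?_, Or.inr ?_⟩
      · intro z hz
        rcases Finset.mem_insert.1 hz with rfl | hz
        · rw [hfix x hx]
          simp
        · rw [Finset.mem_singleton.1 hz, hfix y hy]
          simp
      · rw [hA x hx, hA y hy]
        exact hxy
      · exact hfix x hx
  obtain ⟨S, hS, x, hx, y, hy, hxy, hcase⟩ := key
  obtain ⟨a, e, n, ha, he, hn, h1, h2, hdata⟩ := data (by omega) ht ⟨x, hx⟩ hS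
  obtain ⟨u, hu⟩ := hdata x hx
  obtain ⟨w, hw⟩ := hdata y hy
  obtain ⟨u', hu'⟩ := hdata _ (hS x hx)
  obtain ⟨w', hw'⟩ := hdata _ (hS y hy)
  have r1 := rel (by omega) ha he h1 h2 hu hu' rfl
  have r2 := rel (by omega) ha he h1 h2 hw hw' rfl
  have ha' : (a : ℚ) ≠ 0 := by exact_mod_cast ha.ne'
  have he' : (e : ℚ) ≠ 0 := by exact_mod_cast he.ne'
  have hinj : ∀ {i j : ℤ}, (a : ℚ) * i / e = a * j / e → i = j := by
    intro i j hij
    have h3 := (div_left_inj' he').1 hij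
    have h4 := mul_left_cancel₀ ha' h3
    exact_mod_cast h4
  have hc := coprime_an (by omega) h1 h2
  refine ⟨a, n, u, w, !decide (ft d t x = y), ha, hn, ?_, cong hc r1 r2,
    size_le hd hS ha he h1 h2 hY hX1 hX2 hx hu, size_le hd hS ha he h1 h2 hY hX1 hX2 hy hw, ?_⟩
  · intro h3
    apply hxy
    rw [hu, hw, div_pow, div_pow, mul_pow, mul_pow]
    have : (u : ℚ) ^ d = (w : ℚ) ^ d := by exact_mod_cast h3
    rw [this]
  · have hE : ∀ v : ℤ, v = u' → (e : ℚ) = (a : ℚ) * v - n * u ^ d := by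
      rintro v rfl
      have : ((a : ℤ) * v : ℤ) = n * u ^ d + e := r1
      have h3 : (((a : ℤ) * v : ℤ) : ℚ) = ((n * u ^ d + e : ℤ) : ℚ) := by rw [this]
      push_cast at h3
      linarith
    by_cases hxy' : ft d t x = y
    · have h3 : w = u' := by
        apply hinj
        rw [← hw, ← hxy', hu']
      simp only [hxy', decide_true, Bool.not_true, Bool.false_eq_true, if_false]
      rw [← hE w h3]
      exact t_eq h1 h2
    · have h3 : u = u' := by
        apply hinj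
        rw [← hu, ← hu', hcase.resolve_left hxy']
      simp only [hxy', decide_false, Bool.not_false, if_true]
      rw [← hE u h3]
      exact t_eq h1 h2

/-- The other parameters. -/
theorem good_struct (hd : 3 ≤ d) (hne : (Pre d t).Nonempty)
    (h : ∀ x ∈ Pre d t, ∀ y ∈ Pre d t, x ^ d = y ^ d) :
    ∃ z : ℚ, z ≠ 0 ∧ ft d t z = z ∧ Pre d t = (if Even d then {z, -z} else {z}) := by
  obtain ⟨x, hx⟩ := hne
  have hfe : ∀ y ∈ Pre d t, ft d t y = ft d t x := by
    intro y hy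
    unfold ft
    rw [h y hy x hx]
  have hz := pre_step hx
  have hfz := hfe _ hz
  refine ⟨ft d t x, ?_, hfz, ?_⟩
  · intro h0
    rw [h0] at hfz
    unfold ft at hfz
    rw [zero_pow (by omega), mul_zero, zero_add] at hfz
    exact one_ne_zero hfz
  · split_ifs with hev
    · ext y
      constructor
      · intro hy
        have h1 := h y hy _ hz
        have h2 : |y| = |ft d t x| := by
          have h3 : |y| ^ d = |ft d t x| ^ d := by rw [hev.pow_abs, hev.pow_abs, h1]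
          exact (pow_left_inj₀ (abs_nonneg _) (abs_nonneg _) (by omega)).1 h3
        exact abs_eq_abs.1 h2
      · rintro (rfl | hy)
        · exact hz
        · rw [Set.mem_singleton_iff] at hy
          rw [hy]
          apply pre_of_step
          have h1 : ft d t (-ft d t x) = ft d t (ft d t x) := by
            unfold ft
            rw [hev.neg_pow]
          rw [h1, hfz]
          exact hz
    · have hodd : Odd d := Nat.not_even_iff_odd.1 hev
      ext y
      rw [Set.mem_singleton_iff]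
      constructor
      · intro hy
        exact hodd.strictMono_pow.injective (h y hy _ hz)
      · rintro rfl
        exact hz

end Pool.Agent.Q15.AU
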