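import Pool.Agent.Q15.UM.U5

/-! The divisor bound and a weighted count. -/

set_option autoImplicit false

namespace Pool.Agent.Q15.AU

open Real

/-- `v + 1 ≤ C 2 ^ (ε v)` -/
lemma succ_le (ε : ℝ) (hε : 0 < ε) : ∃ C : ℝ, 1 ≤ C ∧ ∀ v : ℕ, (v : ℝ) + 1 ≤ C * (2 : ℝ) ^ (ε * v) := by
  have hl : 0 < log 2 := log_pos (by norm_num)
  refine ⟨1 + 1 / (ε * log 2), by
    have : 0 < 1 / (ε * log 2) := by positivity
    linarith, fun v => ?_⟩
  have h1 : ε * v * log 2 + 1 ≤ (2 : ℝ) ^ (ε * v) := by
    rw [rpow_def_of_pos (by norm_num), mul_comm (log 2)]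
    exact add_one_le_exp _
  have h2 : (1 + 1 / (ε * log 2)) * (ε * v * log 2 + 1) =
      ε * v * log 2 + 1 + v + 1 / (ε * log 2) := by
    field_simp
    ring
  have h3 : (1 + 1 / (ε * log 2)) * (ε * v * log 2 + 1) ≤
      (1 + 1 / (ε * log 2)) * (2 : ℝ) ^ (ε * v) := by
    apply mul_le_mul_of_nonneg_left h1
    positivity
  have h4 : 0 ≤ ε * v * log 2 := by positivity
  have h5 : 0 < 1 / (ε * log 2) := by positivity
  linarith

/-- the divisor bound -/
theorem divisor_bound (ε : ℝ) (hε : 0 < ε) : ∃ C : ℝ, 1 ≤ C ∧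
    ∀ b : ℕ, 1 ≤ b → ((b.divisors.card : ℕ) : ℝ) ≤ C * (b : ℝ) ^ ε := by
  classical
  obtain ⟨K, hK, hK2⟩ := succ_le ε hε
  obtain ⟨P, hP⟩ : ∃ P : ℕ, (2 : ℝ) ^ (1 / ε) ≤ P := exists_nat_ge _
  refine ⟨K ^ (P + 1), one_le_pow₀ hK, fun b hb => ?_⟩
  rw [Nat.card_divisors (by omega)]
  have h1 : ∀ p ∈ b.primeFactors, ((b.factorization p : ℝ) + 1) ≤
      (if p < P + 1 then K else 1) * ((p : ℝ) ^ b.factorization p) ^ ε := by
    intro p hp
    have hp2 : (2 : ℝ) ≤ p := by exact_mod_cast (Nat.prime_of_mem_primeFactors hp).two_le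
    have e1 : ((p : ℝ) ^ b.factorization p) ^ ε = (p : ℝ) ^ (ε * b.factorization p) := by
      rw [← rpow_natCast, ← rpow_mul (by linarith), mul_comm]
    rw [e1]
    split_ifs with h
    · refine (hK2 _).trans (mul_le_mul_of_nonneg_left ?_ (by linarith))
      exact rpow_le_rpow (by norm_num) hp2 (by positivity)
    · have h2 : (P : ℝ) ≤ p := by
        have : P ≤ p := by omega
        exact_mod_cast this
      rw [one_mul]
      have h3 : (2 : ℝ) ≤ (p : ℝ) ^ ε := by
        calc (2 : ℝ) = ((2 : ℝ) ^ (1 / ε)) ^ ε := by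
              rw [← rpow_mul (by norm_num), one_div_mul_cancel hε.ne', rpow_one]
          _ ≤ (p : ℝ) ^ ε := rpow_le_rpow (by positivity) (hP.trans h2) hε.le
      calc ((b.factorization p : ℝ) + 1) ≤ (2 : ℝ) ^ (b.factorization p) := by
            exact_mod_cast Nat.lt_two_pow_self (n := b.factorization p)
        _ ≤ ((p : ℝ) ^ ε) ^ (b.factorization p) := by gcongr
        _ = (p : ℝ) ^ (ε * b.factorization p) := by
            rw [← rpow_natCast, ← rpow_mul (by linarith)]
  push_cast
  calc ∏ p ∈ b.primeFactors, ((b.factorization p : ℝ) + 1) ≤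
      ∏ p ∈ b.primeFactors, ((if p < P + 1 then K else 1) *
        ((p : ℝ) ^ b.factorization p) ^ ε) :=
        Finset.prod_le_prod (fun _ _ => by positivity) h1
    _ = (∏ p ∈ b.primeFactors, (if p < P + 1 then K else 1)) *
        ∏ p ∈ b.primeFactors, ((p : ℝ) ^ b.factorization p) ^ ε := Finset.prod_mul_distrib
    _ ≤ K ^ (P + 1) * (b : ℝ) ^ ε := by
        apply mul_le_mul
        · rw [Finset.prod_ite, Finset.prod_const_one, mul_one, Finset.prod_const]
          apply pow_le_pow_right₀ hK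
          have h3 : b.primeFactors.filter (fun p => p < P + 1) ⊆ Finset.range (P + 1) := by
            intro p hp
            exact Finset.mem_range.2 (Finset.mem_filter.1 hp).2
          have := Finset.card_le_card h3
          rwa [Finset.card_range] at this
        · rw [finsetProd_rpow _ _ (fun i _ => by positivity)]
          apply rpow_le_rpow (Finset.prod_nonneg fun i _ => by positivity) _ hε.le
          have h4 : ∏ p ∈ b.primeFactors, p ^ b.factorization p = b :=
            Nat.prod_factorization_pow_eq_self (by omega)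
          have h5 : ((∏ p ∈ b.primeFactors, p ^ b.factorization p : ℕ) : ℝ) = b := by rw [h4]
          rw [Nat.cast_prod] at h5
          push_cast at h5
          exact h5.le
        · exact Finset.prod_nonneg fun i _ => by positivity
        · positivity

/-- the weight -/
def wt (u : ℕ) : ℕ := max 1 u

lemma sum_wt (L : ℕ) : ∑ u ∈ Finset.range (L + 1), (1 : ℝ) / wt u ≤ 2 + log L := by
  rw [Finset.range_eq_Ico, Finset.sum_eq_sum_Ico_succ_bot (by omega)]
  have h1 : ∑ u ∈ Finset.Ico (0 + 1) (L + 1), (1 : ℝ) / wt u =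
      ∑ u ∈ Finset.Icc 1 L, (1 : ℝ) / u := by
    have : Finset.Ico (0 + 1) (L + 1) = Finset.Icc 1 L := by
      ext x
      rw [Finset.mem_Ico, Finset.mem_Icc]
      omega
    rw [this]
    apply Finset.sum_congr rfl
    intro u hu
    have : wt u = u := by
      unfold wt
      exact max_eq_right (Finset.mem_Icc.1 hu).1
    rw [this]
  rw [h1]
  have h2 := Pool.Agent.Q15.UM.sum_inv L
  have h3 : (1 : ℝ) / wt 0 = 1 := by
    unfold wt
    norm_num
  rw [h3]
  linarith

end Pool.Agent.Q15.AU
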