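import Pool.Agent.Q15.AU.A2
import Pool.Agent.Q15.AU.A3

/-! The number of the exceptional parameters. -/

set_option autoImplicit false

namespace Pool.Agent.Q15.AU

open Real

/-- parameters of height at most `X` with a rational preperiodic point -/
def Par (d : ℕ) (X : ℝ) : Set ℚ :=
  {t | t ≠ 0 ∧ ((|t.num| : ℤ) : ℝ) ≤ X ∧ (t.den : ℝ) ≤ X ∧ (Pre d t).Nonempty}

/-- ... with two preperiodic points whose `d`-th powers are different -/
def Exc (d : ℕ) (X : ℝ) : Set ℚ :=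
  {t | t ∈ Par d X ∧ ∃ x ∈ Pre d t, ∃ y ∈ Pre d t, x ^ d ≠ y ^ d}

/-- a number with a sign -/
def sg (b : Bool) (k : ℕ) : ℤ := if b then k else -k

lemma exists_sg (n : ℤ) : ∃ b, n = sg b n.natAbs := by
  rcases le_total 0 n with h | h
  · exact ⟨true, by unfold sg; rw [if_pos rfl]; omega⟩
  · exact ⟨false, by unfold sg; rw [if_neg (by simp)]; omega⟩

lemma natAbs_sg (b : Bool) (k : ℕ) : (sg b k).natAbs = k := by
  unfold sg
  split_ifs <;> simp

/-- the parameter of a datum -/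
def par (d : ℕ) (n u w : ℤ) (s : Bool) (a : ℕ) : ℚ :=
  n * ((a : ℚ) * (if s then (u : ℚ) else w) - n * u ^ d) ^ (d - 1) / (a : ℚ) ^ d

open Classical in
/-- the set of the parameters of all data -/
noncomputable def dat (d : ℕ) (Y : ℝ) : Finset ℚ :=
  (Finset.range (⌊2 * Y⌋₊ + 1) ×ˢ Finset.range (⌊2 * Y⌋₊ + 1)).biUnion fun k =>
    (Finset.univ : Finset (Bool × Bool × Bool × Bool)).biUnion fun σ =>
      (Finset.Icc 1 ⌊2 * Y / (wt k.1 * wt k.2)⌋₊).biUnion fun m =>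
        ((sg σ.1 k.1 ^ d - sg σ.2.1 k.2 ^ d).natAbs.divisors).image
          (par d (sg σ.2.2.1 m) (sg σ.1 k.1) (sg σ.2.1 k.2) σ.2.2.2)

section

variable {d : ℕ} (hd : 3 ≤ d)
include hd

lemma exc_subset {X : ℝ} (hX : 1 ≤ X) : Exc d X ⊆ (dat d (X ^ (1 / (d : ℝ))) : Set ℚ) := by
  classical
  set Y := X ^ (1 / (d : ℝ)) with hY
  have hY1 : 1 ≤ Y := one_le_rpow hX (by positivity)
  have hd0 : (d : ℝ) ≠ 0 := by
    have : d ≠ 0 := by omega
    exact_mod_cast this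
  have hYd : Y ^ d = X := by
    rw [hY, ← rpow_natCast, ← rpow_mul (by linarith), one_div_mul_cancel hd0, rpow_one]
  rintro t ⟨⟨ht, h1, h2, -⟩, h3⟩
  rw [← hYd] at h1 h2
  obtain ⟨a, n, u, w, s, ha, hn, hne, hdv, hu, hw, htt⟩ :=
    exc_pair hd ht h3 (by linarith) h1 h2
  obtain ⟨b1, hb1⟩ := exists_sg u
  obtain ⟨b2, hb2⟩ := exists_sg w
  obtain ⟨b3, hb3⟩ := exists_sg n
  have hn1 : (1 : ℝ) ≤ |(n : ℝ)| := by
    have : (1 : ℤ) ≤ |n| := Int.one_le_abs hn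
    exact_mod_cast this
  have habs : ∀ z : ℤ, |(z : ℝ)| = (z.natAbs : ℝ) := by
    intro z
    rw [← Int.cast_abs, Int.abs_eq_natAbs]
    rfl
  have hle : ∀ z : ℤ, |(n : ℝ)| * |(z : ℝ)| ^ (d - 1) ≤ 2 * Y →
      z.natAbs ∈ Finset.range (⌊2 * Y⌋₊ + 1) := by
    intro z hz
    rw [Finset.mem_range, Nat.lt_succ_iff]
    apply Nat.le_floor
    rw [← habs]
    rcases Nat.eq_zero_or_pos z.natAbs with h4 | h4
    · rw [habs, h4]
      simp
      linarith
    · have h5 : (1 : ℝ) ≤ |(z : ℝ)| := by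
        rw [habs]
        exact_mod_cast h4
      have h6 : |(z : ℝ)| ≤ |(z : ℝ)| ^ (d - 1) := le_self_pow₀ h5 (by omega)
      nlinarith [abs_nonneg (z : ℝ)]
  rw [Finset.mem_coe]
  unfold dat
  rw [Finset.mem_biUnion]
  refine ⟨(u.natAbs, w.natAbs), Finset.mem_product.2 ⟨hle u hu, hle w hw⟩, ?_⟩
  rw [Finset.mem_biUnion]
  refine ⟨(b1, b2, b3, s), Finset.mem_univ _, ?_⟩
  rw [Finset.mem_biUnion]
  refine ⟨n.natAbs, ?_, ?_⟩
  · rw [Finset.mem_Icc]
    refine ⟨by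
      have := Int.natAbs_ne_zero.2 hn
      omega, ?_⟩
    apply Nat.le_floor
    simp only
    rw [← habs]
    have hwt : (0 : ℝ) < wt u.natAbs * wt w.natAbs := by
      have h4 : 0 < wt u.natAbs := by unfold wt; omega
      have h5 : 0 < wt w.natAbs := by unfold wt; omega
      have h6 : 0 < wt u.natAbs * wt w.natAbs := Nat.mul_pos h4 h5
      exact_mod_cast h6
    rw [le_div_iff₀ hwt]
    -- the larger of the two
    obtain ⟨V, hV⟩ : ∃ V, V = max u.natAbs w.natAbs := ⟨_, rfl⟩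
    have hV1 : 1 ≤ V := by
      rw [hV]
      by_contra hcon
      have h4 : u = 0 := by omega
      have h5 : w = 0 := by omega
      apply hne
      rw [h4, h5]
    have h4 : wt u.natAbs * wt w.natAbs ≤ V ^ (d - 1) := by
      calc wt u.natAbs * wt w.natAbs ≤ V * V := by
            apply Nat.mul_le_mul
            · unfold wt
              rw [hV]
              omega
            · unfold wt
              rw [hV]
              omega
        _ = V ^ 2 := (sq V).symm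
        _ ≤ V ^ (d - 1) := Nat.pow_le_pow_right hV1 (by omega)
    have h5 : (wt u.natAbs : ℝ) * wt w.natAbs ≤ (V : ℝ) ^ (d - 1) := by exact_mod_cast h4
    calc |(n : ℝ)| * (wt u.natAbs * wt w.natAbs) ≤ |(n : ℝ)| * (V : ℝ) ^ (d - 1) :=
          mul_le_mul_of_nonneg_left h5 (abs_nonneg _)
      _ ≤ 2 * Y := by
          rcases max_choice u.natAbs w.natAbs with h6 | h6
          · rw [hV, h6, ← habs]
            exact hu
          · rw [hV, h6, ← habs]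
            exact hw
  · rw [Finset.mem_image]
    refine ⟨a, ?_, ?_⟩
    · simp only
      rw [← hb1, ← hb2, Nat.mem_divisors]
      refine ⟨Int.natCast_dvd.1 hdv, ?_⟩
      rw [Int.natAbs_ne_zero]
      exact sub_ne_zero.2 hne
    · simp only
      rw [← hb1, ← hb2, ← hb3]
      unfold par
      exact htt.symm

/-- the number of data -/
lemma dat_card {Y : ℝ} (hY : 1 ≤ Y) {ε C : ℝ} (hε : 0 < ε) (hC : 1 ≤ C)
    (hτ : ∀ b : ℕ, 1 ≤ b → ((b.divisors.card : ℕ) : ℝ) ≤ C * (b : ℝ) ^ (ε / (2 * (d + 1)))) :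
    ((dat d Y).card : ℝ) ≤ 32 * C * (2 + 4 / ε) ^ 2 * (2 * Y) ^ ε * Y := by
  classical
  have hdd : (0 : ℝ) < d + 1 := by positivity
  obtain ⟨T, hT⟩ : ∃ T : ℝ, T = C * (2 * Y) ^ (ε / 2) := ⟨_, rfl⟩
  have hT0 : 0 ≤ T := by
    rw [hT]
    positivity
  -- the number of divisors
  have h1 : ∀ k1 k2 : ℕ, k1 ∈ Finset.range (⌊2 * Y⌋₊ + 1) → k2 ∈ Finset.range (⌊2 * Y⌋₊ + 1) →
      ∀ b1 b2 : Bool, (((sg b1 k1 ^ d - sg b2 k2 ^ d).natAbs.divisors.card : ℕ) : ℝ) ≤ T := by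
    intro k1 k2 hk1 hk2 b1 b2
    rcases Nat.eq_zero_or_pos (sg b1 k1 ^ d - sg b2 k2 ^ d).natAbs with h0 | h0
    · rw [h0, Nat.divisors_zero, Finset.card_empty, Nat.cast_zero]
      exact hT0
    · refine (hτ _ h0).trans ?_
      rw [hT]
      apply mul_le_mul_of_nonneg_left _ (by linarith)
      have h2 : ∀ k : ℕ, k ∈ Finset.range (⌊2 * Y⌋₊ + 1) → (k : ℝ) ≤ 2 * Y := by
        intro k hk
        rw [Finset.mem_range, Nat.lt_succ_iff] at hk
        exact (Nat.cast_le.2 hk).trans (Nat.floor_le (by linarith))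
      have h3 : (((sg b1 k1 ^ d - sg b2 k2 ^ d).natAbs : ℕ) : ℝ) ≤ (2 * Y) ^ (d + 1) := by
        have h4 : (sg b1 k1 ^ d - sg b2 k2 ^ d).natAbs ≤ k1 ^ d + k2 ^ d := by
          refine (Int.natAbs_sub_le _ _).trans ?_
          rw [Int.natAbs_pow, Int.natAbs_pow, natAbs_sg, natAbs_sg]
        calc (((sg b1 k1 ^ d - sg b2 k2 ^ d).natAbs : ℕ) : ℝ) ≤ ((k1 ^ d + k2 ^ d : ℕ) : ℝ) :=
              Nat.cast_le.2 h4
          _ = (k1 : ℝ) ^ d + (k2 : ℝ) ^ d := by push_cast; rfl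
          _ ≤ (2 * Y) ^ d + (2 * Y) ^ d := by
              have := h2 k1 hk1
              have := h2 k2 hk2
              gcongr
          _ = 2 * (2 * Y) ^ d := by ring
          _ ≤ (2 * Y) * (2 * Y) ^ d := by
              apply mul_le_mul_of_nonneg_right _ (by positivity)
              linarith
          _ = (2 * Y) ^ (d + 1) := by ring
      calc (((sg b1 k1 ^ d - sg b2 k2 ^ d).natAbs : ℕ) : ℝ) ^ (ε / (2 * (d + 1))) ≤
          ((2 * Y) ^ (d + 1)) ^ (ε / (2 * (d + 1))) :=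
            rpow_le_rpow (Nat.cast_nonneg _) h3 (by positivity)
        _ = (2 * Y) ^ (ε / 2) := by
            rw [← rpow_natCast, ← rpow_mul (by linarith)]
            congr 1
            push_cast
            field_simp
  -- the sum over `m` and the signs
  have h2 : ∀ k ∈ Finset.range (⌊2 * Y⌋₊ + 1) ×ˢ Finset.range (⌊2 * Y⌋₊ + 1),
      ((((Finset.univ : Finset (Bool × Bool × Bool × Bool)).biUnion fun σ =>
      (Finset.Icc 1 ⌊2 * Y / (wt k.1 * wt k.2)⌋₊).biUnion fun m =>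
        ((sg σ.1 k.1 ^ d - sg σ.2.1 k.2 ^ d).natAbs.divisors).image
          (par d (sg σ.2.2.1 m) (sg σ.1 k.1) (sg σ.2.1 k.2) σ.2.2.2)).card : ℕ) : ℝ) ≤
      32 * T * Y * (1 / wt k.1) * (1 / wt k.2) := by
    intro k hk
    obtain ⟨hk1, hk2⟩ := Finset.mem_product.1 hk
    have hw1 : (0 : ℝ) < wt k.1 := by
      have : 0 < wt k.1 := by unfold wt; omega
      exact_mod_cast this
    have hw2 : (0 : ℝ) < wt k.2 := by
      have : 0 < wt k.2 := by unfold wt; omega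
      exact_mod_cast this
    have h3 : ∀ σ : Bool × Bool × Bool × Bool,
        ((((Finset.Icc 1 ⌊2 * Y / (wt k.1 * wt k.2)⌋₊).biUnion fun m =>
        ((sg σ.1 k.1 ^ d - sg σ.2.1 k.2 ^ d).natAbs.divisors).image
          (par d (sg σ.2.2.1 m) (sg σ.1 k.1) (sg σ.2.1 k.2) σ.2.2.2)).card : ℕ) : ℝ) ≤
        (2 * Y / (wt k.1 * wt k.2)) * T := by
      intro σ
      have h4 := Finset.card_biUnion_le_card_mul (Finset.Icc 1 ⌊2 * Y / (wt k.1 * wt k.2)⌋₊)
        (fun m => ((sg σ.1 k.1 ^ d - sg σ.2.1 k.2 ^ d).natAbs.divisors).image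
          (par d (sg σ.2.2.1 m) (sg σ.1 k.1) (sg σ.2.1 k.2) σ.2.2.2))
        (sg σ.1 k.1 ^ d - sg σ.2.1 k.2 ^ d).natAbs.divisors.card
        (fun m _ => Finset.card_image_le)
      rw [Nat.card_Icc, Nat.add_sub_cancel] at h4
      calc _ ≤ ((⌊2 * Y / (wt k.1 * wt k.2)⌋₊ *
            (sg σ.1 k.1 ^ d - sg σ.2.1 k.2 ^ d).natAbs.divisors.card : ℕ) : ℝ) :=
            Nat.cast_le.2 h4
        _ = (⌊2 * Y / (wt k.1 * wt k.2)⌋₊ : ℝ) *
            (((sg σ.1 k.1 ^ d - sg σ.2.1 k.2 ^ d).natAbs.divisors.card : ℕ) : ℝ) := by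
            rw [Nat.cast_mul]
        _ ≤ (2 * Y / (wt k.1 * wt k.2)) * T := by
            apply mul_le_mul (Nat.floor_le (by positivity)) (h1 _ _ hk1 hk2 _ _)
              (Nat.cast_nonneg _) (by positivity)
    calc _ ≤ ((∑ σ : Bool × Bool × Bool × Bool,
          ((Finset.Icc 1 ⌊2 * Y / (wt k.1 * wt k.2)⌋₊).biUnion fun m =>
        ((sg σ.1 k.1 ^ d - sg σ.2.1 k.2 ^ d).natAbs.divisors).image
          (par d (sg σ.2.2.1 m) (sg σ.1 k.1) (sg σ.2.1 k.2) σ.2.2.2)).card : ℕ) : ℝ) :=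
          Nat.cast_le.2 Finset.card_biUnion_le
      _ ≤ ∑ _σ : Bool × Bool × Bool × Bool, (2 * Y / (wt k.1 * wt k.2)) * T := by
          rw [Nat.cast_sum]
          exact Finset.sum_le_sum fun σ _ => h3 σ
      _ = 16 * ((2 * Y / (wt k.1 * wt k.2)) * T) := by
          rw [Finset.sum_const, nsmul_eq_mul]
          congr 1
      _ = _ := by
          field_simp
          ring
  -- the sum over the pairs
  have h3 : ∑ k ∈ Finset.range (⌊2 * Y⌋₊ + 1) ×ˢ Finset.range (⌊2 * Y⌋₊ + 1),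
      32 * T * Y * (1 / wt k.1) * (1 / wt k.2) =
      32 * T * Y * (∑ u ∈ Finset.range (⌊2 * Y⌋₊ + 1), (1 : ℝ) / wt u) ^ 2 := by
    rw [Finset.sum_product, sq, Finset.sum_mul_sum, Finset.mul_sum]
    apply Finset.sum_congr rfl
    intro x _
    rw [Finset.mul_sum]
    apply Finset.sum_congr rfl
    intro y _
    ring
  have h4 : ∑ u ∈ Finset.range (⌊2 * Y⌋₊ + 1), (1 : ℝ) / wt u ≤
      (2 + 4 / ε) * (2 * Y) ^ (ε / 4) := by
    refine (sum_wt _).trans ?_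
    have h5 : log (⌊2 * Y⌋₊ : ℝ) ≤ log (2 * Y) := by
      apply log_le_log
      · have : 1 ≤ ⌊2 * Y⌋₊ := Nat.le_floor (by push_cast; linarith)
        exact_mod_cast this
      · exact Nat.floor_le (by linarith)
    have h6 := log_le_rpow_div (x := 2 * Y) (by linarith) (ε := ε / 4) (by positivity)
    have h7 : 1 ≤ (2 * Y) ^ (ε / 4) := one_le_rpow (by linarith) (by positivity)
    have h8 : (2 * Y) ^ (ε / 4) / (ε / 4) = 4 / ε * (2 * Y) ^ (ε / 4) := by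
      field_simp
    rw [h8] at h6
    linarith
  have h5 : 0 ≤ ∑ u ∈ Finset.range (⌊2 * Y⌋₊ + 1), (1 : ℝ) / wt u :=
    Finset.sum_nonneg fun _ _ => by positivity
  calc ((dat d Y).card : ℝ) ≤ ((∑ k ∈ Finset.range (⌊2 * Y⌋₊ + 1) ×ˢ
        Finset.range (⌊2 * Y⌋₊ + 1), ((Finset.univ : Finset (Bool × Bool × Bool × Bool)).biUnion
        fun σ => (Finset.Icc 1 ⌊2 * Y / (wt k.1 * wt k.2)⌋₊).biUnion fun m =>
        ((sg σ.1 k.1 ^ d - sg σ.2.1 k.2 ^ d).natAbs.divisors).image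
          (par d (sg σ.2.2.1 m) (sg σ.1 k.1) (sg σ.2.1 k.2) σ.2.2.2)).card : ℕ) : ℝ) :=
        Nat.cast_le.2 Finset.card_biUnion_le
    _ ≤ ∑ k ∈ Finset.range (⌊2 * Y⌋₊ + 1) ×ˢ Finset.range (⌊2 * Y⌋₊ + 1),
        32 * T * Y * (1 / wt k.1) * (1 / wt k.2) := by
        rw [Nat.cast_sum]
        exact Finset.sum_le_sum h2
    _ = 32 * T * Y * (∑ u ∈ Finset.range (⌊2 * Y⌋₊ + 1), (1 : ℝ) / wt u) ^ 2 := h3
    _ ≤ 32 * T * Y * ((2 + 4 / ε) * (2 * Y) ^ (ε / 4)) ^ 2 := by gcongr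
    _ = 32 * C * (2 + 4 / ε) ^ 2 * ((2 * Y) ^ (ε / 2) * ((2 * Y) ^ (ε / 4) * (2 * Y) ^ (ε / 4))) *
        Y := by
        rw [hT]
        ring
    _ = _ := by
        rw [← rpow_add (by linarith), ← rpow_add (by linarith)]
        congr 3
        ring

/-- the number of the exceptional parameters -/
theorem exc_card (ε : ℝ) (hε : 0 < ε) : ∃ K : ℝ, 1 ≤ K ∧ ∀ X : ℝ, 1 ≤ X → (Exc d X).Finite ∧
    ((Exc d X).ncard : ℝ) ≤ K * (X ^ (1 / (d : ℝ))) ^ (1 + ε) := by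
  obtain ⟨C, hC, hτ⟩ := divisor_bound (ε / (2 * (d + 1))) (by positivity)
  refine ⟨32 * C * (2 + 4 / ε) ^ 2 * 2 ^ ε + 1, ?_, fun X hX => ?_⟩
  · have : 0 ≤ 32 * C * (2 + 4 / ε) ^ 2 * 2 ^ ε := by positivity
    linarith
  have hsub := exc_subset hd hX
  set Y := X ^ (1 / (d : ℝ)) with hY
  have hY1 : 1 ≤ Y := one_le_rpow hX (by positivity)
  refine ⟨(Finset.finite_toSet _).subset hsub, ?_⟩
  have h1 := Set.ncard_le_ncard hsub (Finset.finite_toSet _)
  rw [Set.ncard_coe_finset] at h1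
  have h2 := dat_card hd hY1 hε hC hτ
  calc ((Exc d X).ncard : ℝ) ≤ ((dat d Y).card : ℝ) := Nat.cast_le.2 h1
    _ ≤ 32 * C * (2 + 4 / ε) ^ 2 * (2 * Y) ^ ε * Y := h2
    _ = 32 * C * (2 + 4 / ε) ^ 2 * 2 ^ ε * Y ^ (1 + ε) := by
        rw [mul_rpow (by norm_num) (by linarith), rpow_add (by linarith), rpow_one]
        ring
    _ ≤ _ := by
        apply mul_le_mul_of_nonneg_right _ (by positivity)
        linarith

end

end Pool.Agent.Q15.AU
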