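import Pool.Agent.Q15.AU.A4
import Pool.Agent.Q15.AU.A7

/-! The number of all parameters, and the moments. -/

set_option autoImplicit false
set_option linter.unusedSectionVars false

namespace Pool.Agent.Q15.AU

open Real
open Pool.Agent.Q15.UM (cop cop_ge omega_bound)

section

variable {d : ℕ} (hd : 3 ≤ d)
include hd

/-- the size of a fixed point -/
lemma fixed_size {t z : ℚ} (ht : t ≠ 0) (hz : z ≠ 0) (h : ft d t z = z) {Y : ℝ} (hY : 1 ≤ Y)
    (h1 : ((|t.num| : ℤ) : ℝ) ≤ Y ^ d) (h2 : (t.den : ℝ) ≤ Y ^ d) :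
    (z.num.natAbs : ℝ) ≤ Y ∧ (z.den : ℝ) ≤ 2 * Y := by
  have hd0 : d ≠ 0 := by omega
  have hdd : d = (d - 1) + 1 := by omega
  have hm0 : (t.den : ℚ) ≠ 0 := by exact_mod_cast t.den_nz
  have hs0 : (z.den : ℚ) ≠ 0 := by exact_mod_cast z.den_nz
  have hr0 : z.num ≠ 0 := Rat.num_ne_zero.2 hz
  have key : t.num * z.num ^ d = t.den * ((z.num - z.den) * (z.den : ℤ) ^ (d - 1)) := by
    have h3 : t * z ^ d + 1 = z := h
    rw [← Rat.num_div_den t] at h3
    have h4 : z ^ d = (z.num : ℚ) ^ d / (z.den : ℚ) ^ d := by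
      rw [← div_pow, Rat.num_div_den]
    have h5 : z = (z.num : ℚ) / z.den := (Rat.num_div_den z).symm
    rw [h4] at h3
    have h6 : (t.num : ℚ) / t.den * ((z.num : ℚ) ^ d / (z.den : ℚ) ^ d) + 1 =
        (z.num : ℚ) / z.den := by
      rw [h3]
      exact h5
    have h7 : (z.den : ℚ) ^ d = (z.den : ℚ) ^ (d - 1) * z.den := by
      rw [← pow_succ, ← hdd]
    rw [h7] at h6
    have h8 : (z.den : ℚ) ^ (d - 1) ≠ 0 := pow_ne_zero _ hs0
    have h9 : (t.num : ℚ) * (z.num : ℚ) ^ d =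
        t.den * (((z.num : ℚ) - z.den) * (z.den : ℚ) ^ (d - 1)) := by
      field_simp at h6
      linear_combination h6
    exact_mod_cast h9
  have hco : IsCoprime (z.num) (z.den : ℤ) := by
    have := z.reduced
    rw [← Int.natAbs_natCast z.den] at this
    exact Int.isCoprime_iff_gcd_eq_one.2 this
  have hct : IsCoprime (t.num) (t.den : ℤ) := by
    have := t.reduced
    rw [← Int.natAbs_natCast t.den] at this
    exact Int.isCoprime_iff_gcd_eq_one.2 this
  have hco2 : IsCoprime (z.num ^ d) ((z.num - z.den) * (z.den : ℤ) ^ (d - 1)) := by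
    apply IsCoprime.pow_left
    apply IsCoprime.mul_right
    · have h3 : IsCoprime z.num (-(z.den : ℤ)) := hco.neg_right
      have h4 : z.num - z.den = -(z.den : ℤ) + z.num * 1 := by ring
      rw [h4]
      exact h3.add_mul_left_right 1
    · exact hco.pow_right
  have hdv1 : z.num ^ d ∣ (t.den : ℤ) :=
    hco2.dvd_of_dvd_mul_right (by rw [← key]; exact Dvd.intro_left _ rfl)
  have hdv2 : (t.den : ℤ) ∣ z.num ^ d :=
    hct.symm.dvd_of_dvd_mul_left (by rw [key]; exact Dvd.intro _ rfl)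
  have hden : (t.den : ℤ) = |z.num| ^ d := by
    rw [← abs_pow]
    have h3 := Int.natAbs_dvd_natAbs.2 hdv1
    have h4 := Int.natAbs_dvd_natAbs.2 hdv2
    have h5 := Nat.dvd_antisymm h4 h3
    rw [Int.natAbs_natCast] at h5
    rw [Int.abs_eq_natAbs, ← h5]
  have hnum : |t.num| = |z.num - z.den| * (z.den : ℤ) ^ (d - 1) := by
    have h3 : |t.num| * |z.num| ^ d = |z.num| ^ d * (|z.num - z.den| * (z.den : ℤ) ^ (d - 1)) := by
      have e1 : |t.num| * |z.num| ^ d = |t.num * z.num ^ d| := by rw [abs_mul, abs_pow]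
      rw [e1, key, abs_mul, abs_mul, abs_of_nonneg (Int.natCast_nonneg t.den),
        abs_of_nonneg (pow_nonneg (Int.natCast_nonneg z.den) _), hden]
    have h4 : |z.num| ^ d ≠ 0 := pow_ne_zero _ (abs_ne_zero.2 hr0)
    rw [mul_comm] at h3
    exact mul_left_cancel₀ h4 h3
  have hY0 : 0 ≤ Y := by linarith
  have hr : ((|z.num| : ℤ) : ℝ) ≤ Y := by
    apply le_of_pow_le_pow_left₀ hd0 hY0
    have h3 : ((t.den : ℤ) : ℝ) ≤ Y ^ d := by exact_mod_cast h2
    rw [hden] at h3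
    exact_mod_cast h3
  refine ⟨?_, ?_⟩
  · rw [Nat.cast_natAbs]
    exact hr
  · by_contra hcon
    push Not at hcon
    have h3 : Y < ((|z.num - z.den| : ℤ) : ℝ) := by
      push_cast
      push_cast at hr
      have h4 := abs_sub_abs_le_abs_sub (z.den : ℝ) (z.num : ℝ)
      rw [abs_sub_comm (z.den : ℝ)] at h4
      have h5 : |(z.den : ℝ)| = z.den := abs_of_nonneg (Nat.cast_nonneg _)
      rw [h5] at h4
      linarith
    have h4 : ((|t.num| : ℤ) : ℝ) = ((|z.num - z.den| : ℤ) : ℝ) * (z.den : ℝ) ^ (d - 1) := by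
      rw [hnum]
      push_cast
      rfl
    rw [h4] at h1
    have h5 : Y ^ (d - 1) ≤ (z.den : ℝ) ^ (d - 1) := by
      apply pow_le_pow_left₀ hY0
      linarith
    have h6 : Y ^ d = Y * Y ^ (d - 1) := by
      rw [← pow_succ', ← hdd]
    have h7 : 0 < Y ^ (d - 1) := by positivity
    have h8 : Y * Y ^ (d - 1) < ((|z.num - z.den| : ℤ) : ℝ) * (z.den : ℝ) ^ (d - 1) := by
      calc Y * Y ^ (d - 1) < ((|z.num - z.den| : ℤ) : ℝ) * Y ^ (d - 1) :=
            mul_lt_mul_of_pos_right h3 h7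
        _ ≤ _ := mul_le_mul_of_nonneg_left h5 (by linarith)
    linarith

/-- parameters which are not exceptional -/
lemma good_of {X : ℝ} {t : ℚ} (ht : t ∈ Par d X) (h : t ∉ Exc d X) :
    ∃ z : ℚ, z ≠ 0 ∧ ft d t z = z ∧ Pre d t = (if Even d then {z, -z} else {z}) := by
  apply good_struct hd ht.2.2.2
  intro x hx y hy
  by_contra hne
  exact h ⟨ht, x, hx, y, hy, hne⟩

omit hd in
lemma rootX {X : ℝ} (hX : 1 ≤ X) (hd0 : d ≠ 0) : (X ^ (1 / (d : ℝ))) ^ d = X := by
  have : (d : ℝ) ≠ 0 := by exact_mod_cast hd0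
  rw [← rpow_natCast, ← rpow_mul (by linarith), one_div_mul_cancel this, rpow_one]

/-- the upper bound for the number of all parameters -/
theorem par_upper : ∃ K : ℝ, 1 ≤ K ∧ ∀ X : ℝ, 1 ≤ X → (Par d X).Finite ∧
    ((Par d X).ncard : ℝ) ≤ K * (X ^ (1 / (d : ℝ))) ^ (2 : ℝ) := by
  classical
  obtain ⟨K, hK, hexc⟩ := exc_card hd 1 one_pos
  refine ⟨K + 8, by linarith, fun X hX => ?_⟩
  set Y := X ^ (1 / (d : ℝ)) with hY
  have hY1 : 1 ≤ Y := one_le_rpow hX (by positivity)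
  have hYd : Y ^ d = X := rootX hX (by omega)
  obtain ⟨hbf, hbc⟩ := hexc X hX
  rw [← hY] at hbc
  set G : Finset ℚ := ((Finset.range (⌊Y⌋₊ + 1) ×ˢ Finset.Icc 1 ⌊2 * Y⌋₊) ×ˢ
    (Finset.univ : Finset Bool)).image fun x =>
      (((sg x.2 x.1.1 : ℚ) / x.1.2) - 1) / ((sg x.2 x.1.1 : ℚ) / x.1.2) ^ d with hG
  have hsub : Par d X ⊆ Exc d X ∪ (G : Set ℚ) := by
    intro t ht
    by_cases hte : t ∈ Exc d X
    · exact Or.inl hte
    · right
      obtain ⟨z, hz0, hfz, -⟩ := good_of hd ht hte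
      obtain ⟨ht0, h1, h2, -⟩ := ht
      rw [← hYd] at h1 h2
      obtain ⟨z1, z2⟩ := fixed_size hd ht0 hz0 hfz hY1 h1 h2
      obtain ⟨b, hb⟩ := exists_sg z.num
      rw [Finset.mem_coe, hG, Finset.mem_image]
      refine ⟨((z.num.natAbs, z.den), b), ?_, ?_⟩
      · rw [Finset.mem_product, Finset.mem_product, Finset.mem_Icc, Finset.mem_range]
        exact ⟨⟨Nat.lt_succ_of_le (Nat.le_floor z1), ⟨z.den_pos, Nat.le_floor z2⟩⟩,
          Finset.mem_univ _⟩
      · simp only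
        rw [← hb, Rat.num_div_den]
        have h3 : z ^ d ≠ 0 := pow_ne_zero _ hz0
        rw [div_eq_iff h3]
        unfold ft at hfz
        linarith
  have hGc : (G.card : ℝ) ≤ 8 * Y ^ (2 : ℝ) := by
    have h1 := Finset.card_image_le (s := (Finset.range (⌊Y⌋₊ + 1) ×ˢ Finset.Icc 1 ⌊2 * Y⌋₊) ×ˢ
      (Finset.univ : Finset Bool)) (f := fun x =>
      (((sg x.2 x.1.1 : ℚ) / x.1.2) - 1) / ((sg x.2 x.1.1 : ℚ) / x.1.2) ^ d)
    rw [Finset.card_product, Finset.card_product, Nat.card_Icc, Finset.card_range,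
      Nat.add_sub_cancel] at h1
    have h2 : (Finset.univ : Finset Bool).card = 2 := by rfl
    rw [h2] at h1
    have h3 : (⌊Y⌋₊ : ℝ) ≤ Y := Nat.floor_le (by positivity)
    have h4 : (⌊2 * Y⌋₊ : ℝ) ≤ 2 * Y := Nat.floor_le (by positivity)
    have h5 : Y ^ (2 : ℝ) = Y * Y := by
      rw [rpow_two, sq]
    rw [h5]
    calc (G.card : ℝ) ≤ (((⌊Y⌋₊ + 1) * ⌊2 * Y⌋₊ * 2 : ℕ) : ℝ) := Nat.cast_le.2 h1
      _ = ((⌊Y⌋₊ : ℝ) + 1) * (⌊2 * Y⌋₊ : ℝ) * 2 := by push_cast; ring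
      _ ≤ (Y + 1) * (2 * Y) * 2 := by gcongr
      _ ≤ 8 * (Y * Y) := by nlinarith
  have hfin : (Exc d X ∪ (G : Set ℚ)).Finite := hbf.union (Finset.finite_toSet _)
  refine ⟨hfin.subset hsub, ?_⟩
  have h1 : (Par d X).ncard ≤ (Exc d X).ncard + G.card := by
    refine (Set.ncard_le_ncard hsub hfin).trans ?_
    refine (Set.ncard_union_le _ _).trans ?_
    rw [Set.ncard_coe_finset]
  have h2 : Y ^ ((1 : ℝ) + 1) = Y ^ (2 : ℝ) := by norm_num
  rw [h2] at hbc
  calc ((Par d X).ncard : ℝ) ≤ ((Exc d X).ncard : ℝ) + G.card := by exact_mod_cast h1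
    _ ≤ K * Y ^ (2 : ℝ) + 8 * Y ^ (2 : ℝ) := add_le_add hbc hGc
    _ = (K + 8) * Y ^ (2 : ℝ) := by ring

omit hd in
lemma inj_aux (hd0 : 2 ≤ d) {b u b' u' : ℕ} (hb : 1 ≤ b) (hb' : 1 ≤ b') (hu : 1 ≤ u)
    (hu' : 1 ≤ u') (hc : Nat.Coprime b u) (hc' : Nat.Coprime b' u')
    (h : (((u : ℚ) / b) + 1) / ((u : ℚ) / b) ^ d = (((u' : ℚ) / b') + 1) / ((u' : ℚ) / b') ^ d) :
    b = b' ∧ u = u' := by
  have hb0 : (0 : ℚ) < b := by exact_mod_cast hb
  have hb0' : (0 : ℚ) < b' := by exact_mod_cast hb'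
  have hu0 : (0 : ℚ) < u := by exact_mod_cast hu
  have hu0' : (0 : ℚ) < u' := by exact_mod_cast hu'
  have h1 : (u : ℚ) / b = (u' : ℚ) / b' := by
    have h2 : StrictAntiOn (fun s : ℚ => (s + 1) / s ^ d) (Set.Ioi 0) := by
      intro s hs t ht hst
      have hs0 : (0 : ℚ) < s := hs
      have ht0 : (0 : ℚ) < t := ht
      simp only
      rw [div_lt_div_iff₀ (pow_pos ht0 _) (pow_pos hs0 _)]
      have h3 : s ^ d < t ^ d := pow_lt_pow_left₀ hst hs0.le (by omega)
      have h4 : s ^ (d - 1) ≤ t ^ (d - 1) := pow_le_pow_left₀ hs0.le hst.le _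
      have h5 : s ^ d = s * s ^ (d - 1) := by
        rw [← pow_succ']
        congr 1
        omega
      have h6 : t ^ d = t * t ^ (d - 1) := by
        rw [← pow_succ']
        congr 1
        omega
      have h7 : t * s ^ d ≤ s * t ^ d := by
        rw [h5, h6]
        have : t * s * s ^ (d - 1) ≤ t * s * t ^ (d - 1) :=
          mul_le_mul_of_nonneg_left h4 (by positivity)
        linarith
      nlinarith
    apply h2.injOn (Set.mem_Ioi.2 (by positivity)) (Set.mem_Ioi.2 (by positivity))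
    exact h
  rw [div_eq_div_iff hb0.ne' hb0'.ne'] at h1
  have h2 : u * b' = u' * b := by exact_mod_cast h1
  have h3 : b = b' := by
    apply Nat.dvd_antisymm
    · exact Nat.Coprime.dvd_of_dvd_mul_left hc (by rw [h2]; exact Dvd.intro_left _ rfl)
    · exact Nat.Coprime.dvd_of_dvd_mul_left hc' (by rw [← h2]; exact Dvd.intro_left _ rfl)
  refine ⟨h3, ?_⟩
  rw [h3] at h2
  exact Nat.eq_of_mul_eq_mul_right (by omega) h2

/-- the lower bound for the number of all parameters -/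
theorem par_lower {X : ℝ} (hX : 1 ≤ X) :
    (X ^ (1 / (d : ℝ))) ^ (2 : ℝ) ≤ 64 * ((Par d X).ncard : ℝ) := by
  classical
  obtain ⟨K, -, hK⟩ := par_upper hd
  have hfin := (hK X hX).1
  have hd0 : (3 : ℝ) ≤ d := by exact_mod_cast hd
  have hdn : d ≠ 0 := by omega
  have hdd : d = (d - 1) + 1 := by omega
  set Y := X ^ (1 / (d : ℝ)) with hY
  have hY1 : 1 ≤ Y := one_le_rpow hX (by positivity)
  rw [rpow_two]
  rcases lt_or_ge X 2 with hX2 | hX2
  · have h0 : (-1 : ℚ) ∈ Par d X := by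
      have hS : Inv d (-1) {0, 1} := by
        intro x hx
        rcases Finset.mem_insert.1 hx with rfl | hx
        · unfold ft
          rw [zero_pow hdn]
          norm_num
        · rw [Finset.mem_singleton.1 hx]
          unfold ft
          norm_num
      refine ⟨by norm_num, by simpa using hX, by simpa using hX, 0, inv_pre hS (by simp)⟩
    have h1 : 1 ≤ (Par d X).ncard := by
      rw [Nat.one_le_iff_ne_zero]
      exact (Set.ncard_pos hfin).2 ⟨-1, h0⟩ |>.ne'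
    have h2 : (1 : ℝ) ≤ (Par d X).ncard := by exact_mod_cast h1
    have h3 : Y ≤ X := by
      calc Y ≤ X ^ (1 : ℝ) := rpow_le_rpow_of_exponent_le hX (by
            rw [div_le_one (by linarith)]
            linarith)
        _ = X := rpow_one X
    nlinarith
  · set Z := (X / 2) ^ (1 / (d : ℝ)) with hZ
    have hZ1 : 1 ≤ Z := one_le_rpow (by linarith) (by positivity)
    have hZd : Z ^ d = X / 2 := rootX (by linarith) hdn
    have hYZ : Y ≤ 2 * Z := by
      have h1 : Y = 2 ^ (1 / (d : ℝ)) * Z := by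
        rw [hY, hZ, ← mul_rpow (by norm_num) (by linarith)]
        congr 1
        ring
      have h2 : (2 : ℝ) ^ (1 / (d : ℝ)) ≤ 2 := by
        calc (2 : ℝ) ^ (1 / (d : ℝ)) ≤ 2 ^ (1 : ℝ) := rpow_le_rpow_of_exponent_le (by norm_num) (by
              rw [div_le_one (by linarith)]
              linarith)
          _ = 2 := rpow_one 2
      rw [h1]
      nlinarith
    obtain ⟨n, hn⟩ : ∃ n, n = ⌊Z⌋₊ := ⟨_, rfl⟩
    have hn1 : 1 ≤ n := by
      rw [hn]
      exact Nat.le_floor (by simpa using hZ1)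
    have hnZ : (n : ℝ) ≤ Z := by
      rw [hn]
      exact Nat.floor_le (by linarith)
    have hZn : Z ≤ 2 * n := by
      have h1 : Z < n + 1 := by
        rw [hn]
        exact Nat.lt_floor_add_one Z
      have h2 : (1 : ℝ) ≤ n := by exact_mod_cast hn1
      linarith
    have hnd : 2 * (n : ℝ) ^ d ≤ X := by
      have h1 : (n : ℝ) ^ d ≤ Z ^ d := by gcongr
      rw [hZd] at h1
      linarith
    -- the family of parameters
    obtain ⟨f, hf⟩ : ∃ f : ℕ × ℕ → ℚ, f = fun x => (-1) ^ (d + 1) *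
      ((((x.2 : ℚ) / x.1) + 1) / ((x.2 : ℚ) / x.1) ^ d) := ⟨_, rfl⟩
    have hsign : ((-1 : ℚ)) ^ (d + 1) ≠ 0 := pow_ne_zero _ (by norm_num)
    have hinj : Set.InjOn f (cop n : Set (ℕ × ℕ)) := by
      intro x hx y hy hxy
      have hx' := Finset.mem_coe.1 hx
      have hy' := Finset.mem_coe.1 hy
      unfold cop at hx' hy'
      rw [Finset.mem_filter, Finset.mem_product, Finset.mem_Icc, Finset.mem_Icc] at hx' hy'
      rw [hf] at hxy
      simp only at hxy
      have hxy' := mul_left_cancel₀ hsign hxy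
      obtain ⟨h1, h2⟩ := inj_aux (by omega) hx'.1.1.1 hy'.1.1.1 hx'.1.2.1 hy'.1.2.1 hx'.2 hy'.2
        hxy'
      exact Prod.ext h1 h2
    have hsub : ((cop n).image f : Set ℚ) ⊆ Par d X := by
      intro c hc
      obtain ⟨x, hx, rfl⟩ := Finset.mem_image.1 (Finset.mem_coe.1 hc)
      unfold cop at hx
      rw [Finset.mem_filter, Finset.mem_product, Finset.mem_Icc, Finset.mem_Icc] at hx
      obtain ⟨⟨⟨a1, a2⟩, ⟨a3, a4⟩⟩, -⟩ := hx
      have hb0 : (0 : ℚ) < x.1 := by exact_mod_cast a1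
      have hu0 : (0 : ℚ) < x.2 := by exact_mod_cast a3
      have hub : (0 : ℚ) < (x.2 : ℚ) / x.1 := by positivity
      have huz : ((x.2 : ℤ) ^ d) ≠ 0 := pow_ne_zero _ (by
        have : (0 : ℤ) < x.2 := by exact_mod_cast a3
        exact this.ne')
      have e : f x = Rat.divInt ((-1) ^ (d + 1) * (((x.2 : ℤ) + x.1) * (x.1 : ℤ) ^ (d - 1)))
          ((x.2 : ℤ) ^ d) := by
        rw [Rat.divInt_eq_div, hf]
        push_cast
        have h6 : (x.1 : ℚ) ^ d = (x.1 : ℚ) ^ (d - 1) * x.1 := by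
          rw [← pow_succ, ← hdd]
        rw [div_pow, h6]
        field_simp
      have hx1 : (x.1 : ℝ) ≤ n := by exact_mod_cast a2
      have hx2 : (x.2 : ℝ) ≤ n := by exact_mod_cast a4
      have h4 : (n : ℝ) ^ d = n * (n : ℝ) ^ (d - 1) := by
        rw [← pow_succ', ← hdd]
      have hf0 : f x ≠ 0 := by
        rw [hf]
        simp only
        apply mul_ne_zero hsign
        positivity
      refine ⟨hf0, ?_, ?_, -((x.2 : ℚ) / x.1), ?_⟩
      · rw [e]
        have h1 := Rat.num_dvd ((-1) ^ (d + 1) * (((x.2 : ℤ) + x.1) * (x.1 : ℤ) ^ (d - 1))) huz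
        have hpos : 0 < ((x.2 : ℤ) + x.1) * (x.1 : ℤ) ^ (d - 1) := by
          have : (0 : ℤ) < x.1 := by exact_mod_cast a1
          have : (0 : ℤ) < x.2 := by exact_mod_cast a3
          positivity
        have habs : |(-1) ^ (d + 1) * (((x.2 : ℤ) + x.1) * (x.1 : ℤ) ^ (d - 1))| =
            ((x.2 : ℤ) + x.1) * (x.1 : ℤ) ^ (d - 1) := by
          rw [abs_mul, abs_pow, abs_neg, abs_one, one_pow, one_mul, abs_of_pos hpos]
        have h2 := Int.le_of_dvd (by rw [habs]; exact hpos) ((abs_dvd_abs _ _).2 h1)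
        rw [habs] at h2
        have h3 : ((|(Rat.divInt ((-1) ^ (d + 1) * (((x.2 : ℤ) + x.1) * (x.1 : ℤ) ^ (d - 1)))
            ((x.2 : ℤ) ^ d)).num| : ℤ) : ℝ) ≤ ((x.2 : ℝ) + x.1) * (x.1 : ℝ) ^ (d - 1) := by
          exact_mod_cast h2
        refine h3.trans ?_
        calc ((x.2 : ℝ) + x.1) * (x.1 : ℝ) ^ (d - 1) ≤ (n + n) * (n : ℝ) ^ (d - 1) := by gcongr
          _ = 2 * (n : ℝ) ^ d := by rw [h4]; ring
          _ ≤ X := hnd
      · rw [e]
        have h1 := Rat.den_dvd ((-1) ^ (d + 1) * (((x.2 : ℤ) + x.1) * (x.1 : ℤ) ^ (d - 1)))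
          ((x.2 : ℤ) ^ d)
        have h2 := Int.le_of_dvd (by
          have : (0 : ℤ) < x.2 := by exact_mod_cast a3
          positivity) h1
        have h3 : ((Rat.divInt ((-1) ^ (d + 1) * (((x.2 : ℤ) + x.1) * (x.1 : ℤ) ^ (d - 1)))
            ((x.2 : ℤ) ^ d)).den : ℝ) ≤ (x.2 : ℝ) ^ d := by
          exact_mod_cast h2
        refine h3.trans ?_
        have h5 : (x.2 : ℝ) ^ d ≤ (n : ℝ) ^ d := by gcongr
        have h6 : 0 ≤ (n : ℝ) ^ d := by positivity
        linarith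
      · apply fixed_pre
        unfold ft
        rw [hf]
        simp only
        have h5 : (-((x.2 : ℚ) / x.1)) ^ d = (-1) ^ d * ((x.2 : ℚ) / x.1) ^ d := neg_pow _ _
        rw [h5]
        have h6 : ((-1 : ℚ)) ^ (d + 1) * (-1) ^ d = -1 := by
          rw [pow_succ, mul_assoc, mul_comm (-1 : ℚ), ← mul_assoc, ← mul_pow]
          norm_num
        have h7 : ((x.2 : ℚ) / x.1) ^ d ≠ 0 := pow_ne_zero _ hub.ne'
        calc (-1 : ℚ) ^ (d + 1) * ((((x.2 : ℚ) / x.1) + 1) / ((x.2 : ℚ) / x.1) ^ d) *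
              ((-1) ^ d * ((x.2 : ℚ) / x.1) ^ d) + 1 = ((-1 : ℚ) ^ (d + 1) * (-1) ^ d) *
              ((((x.2 : ℚ) / x.1) + 1) / ((x.2 : ℚ) / x.1) ^ d * ((x.2 : ℚ) / x.1) ^ d) + 1 := by
              ring
          _ = _ := by
              rw [h6, div_mul_cancel₀ _ h7]
              ring
    have h1 := Set.ncard_le_ncard hsub hfin
    rw [Set.ncard_coe_finset, Finset.card_image_of_injOn hinj] at h1
    have h2 := cop_ge n hn1
    have h3 : ((cop n).card : ℝ) ≤ (Par d X).ncard := by exact_mod_cast h1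
    have h4 : Y ≤ 4 * n := by linarith
    have h5 : Y ^ 2 ≤ (4 * (n : ℝ)) ^ 2 := by gcongr
    nlinarith

/-- the moments over the exceptional parameters -/
theorem moments (p : ℕ) (ε : ℝ) (hε : 0 < ε) : ∃ K : ℝ, 1 ≤ K ∧ ∀ X : ℝ, 1 ≤ X →
    ∀ E : Set ℚ, E ⊆ Exc d X → ∑ᶠ t ∈ E, (((Pre d t).ncard : ℝ)) ^ p ≤
      K * (X ^ (1 / (d : ℝ))) ^ (1 + ε) := by
  classical
  obtain ⟨K, hK, hexc⟩ := exc_card hd (ε / 2) (by positivity)
  obtain ⟨C, hC, hω⟩ := omega_bound d (by omega) (ε / (2 * d * (p + 1))) (by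
    have : 0 < d := by omega
    positivity)
  have hdp : (0 : ℝ) < d := by
    have : 0 < d := by omega
    exact_mod_cast this
  obtain ⟨L, hL⟩ : ∃ L : ℕ, L = max 5 d := ⟨_, rfl⟩
  have hL1 : (1 : ℝ) ≤ L := by
    have : 1 ≤ L := by rw [hL]; omega
    exact_mod_cast this
  refine ⟨K * (L * C) ^ p, ?_, fun X hX E hE => ?_⟩
  · have : 1 ≤ ((L : ℝ) * C) ^ p := one_le_pow₀ (by nlinarith)
    nlinarith
  set Y := X ^ (1 / (d : ℝ)) with hY
  have hY1 : 1 ≤ Y := one_le_rpow hX (by positivity)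
  have hYd : Y ^ d = X := rootX hX (by omega)
  obtain ⟨hbf, hbc⟩ := hexc X hX
  rw [← hY] at hbc
  have hEf : E.Finite := hbf.subset hE
  rw [finsum_mem_eq_finite_toFinset_sum _ hEf]
  have h1 : ∀ t ∈ hEf.toFinset, ((Pre d t).ncard : ℝ) ^ p ≤ (L * C) ^ p * Y ^ (ε / 2) := by
    intro t ht
    obtain ⟨⟨ht0, -, h2, -⟩, -⟩ := hE ((Set.Finite.mem_toFinset hEf).1 ht)
    have h3 : ((Pre d t).ncard : ℝ) ≤ L * C * Y ^ (ε / (2 * (p + 1))) := by
      calc ((Pre d t).ncard : ℝ) ≤ ((d ^ t.den.primeFactors.card * L : ℕ) : ℝ) := by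
            rw [hL]
            exact Nat.cast_le.2 (ncard_pre (by omega) ht0)
        _ = ((d ^ t.den.primeFactors.card : ℕ) : ℝ) * L := by
            rw [Nat.cast_mul]
        _ ≤ (C * (t.den : ℝ) ^ (ε / (2 * d * (p + 1)))) * L := by
            have := hω _ t.den_pos
            gcongr
        _ ≤ (C * (Y ^ d) ^ (ε / (2 * d * (p + 1)))) * L := by
            rw [← hYd] at h2
            gcongr
        _ = _ := by
            rw [← rpow_natCast, ← rpow_mul (by linarith)]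
            have : (d : ℝ) * (ε / (2 * d * (p + 1))) = ε / (2 * (p + 1)) := by
              field_simp
            rw [this]
            ring
    calc ((Pre d t).ncard : ℝ) ^ p ≤ (L * C * Y ^ (ε / (2 * (p + 1)))) ^ p := by gcongr
      _ = (L * C) ^ p * (Y ^ (ε / (2 * (p + 1)))) ^ p := mul_pow _ _ _
      _ ≤ (L * C) ^ p * Y ^ (ε / 2) := by
          apply mul_le_mul_of_nonneg_left _ (by positivity)
          rw [← rpow_natCast, ← rpow_mul (by linarith)]
          apply rpow_le_rpow_of_exponent_le hY1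
          rw [div_mul_eq_mul_div, div_le_div_iff₀ (by positivity) (by norm_num)]
          nlinarith
  have hcard : (hEf.toFinset.card : ℝ) ≤ (Exc d X).ncard := by
    rw [← Set.ncard_eq_toFinset_card _ hEf]
    exact_mod_cast Set.ncard_le_ncard hE hbf
  calc ∑ t ∈ hEf.toFinset, ((Pre d t).ncard : ℝ) ^ p ≤
      ∑ _t ∈ hEf.toFinset, (L * C) ^ p * Y ^ (ε / 2) := Finset.sum_le_sum h1
    _ = (hEf.toFinset.card : ℝ) * ((L * C) ^ p * Y ^ (ε / 2)) := by
        rw [Finset.sum_const, nsmul_eq_mul]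
    _ ≤ (K * Y ^ (1 + ε / 2)) * ((L * C) ^ p * Y ^ (ε / 2)) := by
        apply mul_le_mul_of_nonneg_right (hcard.trans hbc) (by positivity)
    _ = K * (L * C) ^ p * (Y ^ (1 + ε / 2) * Y ^ (ε / 2)) := by ring
    _ = K * (L * C) ^ p * Y ^ (1 + ε) := by
        rw [← rpow_add (by linarith)]
        congr 2
        ring

end

end Pool.Agent.Q15.AU
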